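import Pool.Agent.Work.MP_118406_hc.All

set_option autoImplicit false

/-!
# The spaces of `*`-homomorphisms between the reduced free powers of `C([0,1])` are contractible

Authors: helper44 and the typists of `Work/MP_118406_hc` and `Work/MP_118406_si`.

The reduced free product of `k` copies of `(C([0,1]), Lebesgue)` is the C*-algebra generated by a free
semicircular family `s_1, .., s_k` (this is recalled in the problem file), that is, by the operators
`s_i = l_i + l_i*` on the full Fock space of `ℂ^k`: `FockSpace.algebra` (definitions:
`Pool/Agent/Work/MP_118406_hc/Space.lean`).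

The theorem: for `k, l ≥ 2` the space of all unital `*`-homomorphisms from this algebra for `k` to the one for
`l`, with the topology of pointwise norm convergence, is contractible.  So any two unital `*`-homomorphisms
are homotopic, and every unital `*`-homomorphism is a homotopy equivalence: all these algebras are homotopy
equivalent, and no homotopy invariant (K-theory is one) can distinguish two of them.

Proof.  Let `A_k` be the algebra for `k`.  A homomorphism `φ : A_k → A_l` is determined by the free semicircular
family `φ(s_1), .., φ(s_k)` (it preserves the vacuum state, which is the only trace of `A_k`).  In `A_(l+k)` this family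
can be rotated into `s_(l+1), .., s_(l+k)`: `cos t φ(s_j) + sin t s_(l+j)`.  It remains to come back to `A_l`: there is a path of
endomorphisms `Φ_r` of `A_l` from the identity to an endomorphism `Φ_1` which is the restriction of a homomorphism
`β : A_(l+k) → A_l`.  `Φ_r` changes only `s_2`, in the commutative algebra `C*(s_2) ≅ C([0,1])`, by the maps
`t ↦ t` for `t ≤ 1 - r`, `t ↦ 1 - r + r Z((t - 1 + r)/r)` for `t ≥ 1 - r`, where `Z` is a zigzag map with period `1/(k+1)` which
preserves the Lebesgue measure; `β` maps `s_(l+j)` to `v^j s_1 v^(-j)`, `v ∈ C*(s_2)` the unitary `exp(2 π i t)`.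
-/

open scoped InnerProductSpace

noncomputable section

namespace Pool.Agent.Results.MP_118406_an.ContractibleHomSpaces

open Pool.Agent.MP118406hc

/-- **Theorem.**  Let `k, l ≥ 2` and let `F`, `F'` be the full Fock spaces of `ℂ^k`, `ℂ^l`.  The space of all
unital `*`-homomorphisms from the C*-algebra generated by the semicircular operators of `F` to the one of `F'`
(pointwise norm convergence) is contractible, and every such `*`-homomorphism is a homotopy equivalence. -/
theorem result (k l : ℕ) (hk : 2 ≤ k) (hl : 2 ≤ l)
    (H : Type) [NormedAddCommGroup H] [InnerProductSpace ℂ H] [CompleteSpace H]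
    (H' : Type) [NormedAddCommGroup H'] [InnerProductSpace ℂ H'] [CompleteSpace H']
    (F : FockSpace k H) (F' : FockSpace l H') :
    ContractibleSpace (Hom F.algebra F'.algebra) ∧
    ∀ f : Hom F.algebra F'.algebra, f.IsHomotopyEquiv := by
  have c1 := contr F F' hk hl
  have c2 := contr F' F hl hk
  have c3 := contr F F hk hk
  have c4 := contr F' F' hl hl
  refine ⟨c1, fun f => ?_⟩
  obtain ⟨g⟩ : Nonempty (Hom F'.algebra F.algebra) := inferInstance
  exact ⟨g, PathConnectedSpace.joined _ _, PathConnectedSpace.joined _ _⟩

end Pool.Agent.Results.MP_118406_an.ContractibleHomSpaces
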