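import Mathlib
import Pool.Agent.Work.MP_118406_fr.HS
import Pool.Agent.Work.MP_118406_fp.All

set_option autoImplicit false

/-!
# Irregularity of the isomorphisms from free products of arbitrary algebras to the reduced free powers of `C([0,1])`

Authors: helper60 and the typists of `Work/MP_118406_fp`; the method and most of the helper files are those of helper49 and the
typists of `Work/MP_118406_fr` and `Work/MP_118406_si`.

The reduced free product of `k` copies of `(C([0,1]), Lebesgue)` is the C*-algebra generated by a free semicircular family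
`s_1, .., s_k` (this is recalled in the problem file), that is, by the operators `s_i = l_i + l_i*` on the full Fock space of `ℂ^k`:
`FockSpace.algebra`.  Let `e w` be the orthonormal basis of the Fock space (`w` a word in the letters `1, .., k`), `Ω = e []`
the vacuum vector, and let `n(w)` be the number of the letters of `w` different from a fixed letter `i`.

Let `(B_j, τ_j)`, `j ≤ k'`, be unital C*-algebras with functionals `τ_j`, each generated by finitely many self-adjoint elements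
`b_j0, .., b_jr` whose joint moments are approximable (`Approximable`): there are self-adjoint elements `s_0, x_1, .., x_r` of the C*-algebra
generated by `r + 1` free semicircular elements with almost the same moments.  So `b_j0` is semicircular, and the condition says that `(B_j, τ_j)` is
Connes embeddable.  It holds for `C([0,1])` and for the Jiang-Su algebra `Z` with their traces (for `Z`: it is singly generated, contains a semicircular
element and is contained in the hyperfinite factor; in a II_1 factor two semicircular elements are approximately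
unitarily equivalent; this remark is not part of the Lean file).

Let `ψ_j : B_j → C^{*k}` be unital *-homomorphisms which are free with respect to the vacuum trace, carry it to `τ_j` and have jointly a weakly
dense range (`FreeHoms`).  If `A` is generated by free copies of the `B_j` with a tracial state (`FreeProduct`, in particular if `A` is the reduced
free product of tracial `(B_j, τ_j)`) and `Φ` is an isomorphism from `A` to `C^{*k}`, `k ≥ 2`, then the restrictions of `Φ` to the `B_j` are such a family (last clause of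
the theorem; the trace of `C^{*k}` is unique).  The theorem is a lower bound for EVERY such family, without any assumption of regularity: for every set `S` of
`m ≥ 2` indices

  `∑_{j ∈ S} N_θ(ψ_j(b_j0)) ≥ c θ^(2 (k-1)/(m-1))`  for `0 < θ ≤ 1`,

`c > 0` depends on `k`, `m` only, `N_θ(x) = 2 ∑_w (1 - cos(θ)^n(w)) |⟨e_w, x Ω⟩|²`.  So for `k' > k` every isomorphism from `Z^{*k'}`, from `C^{*k'}`, or
from any mixed free product of `k'` such algebras, to `C^{*k}` is irregular.

Proof.  Let `y` be the family of all `ψ_j(b_jl)`.  GUE matrices `G_jl`, `l = 0, .., r`, give microstates `Y` of `y` with `Y_j0 = G_j0`: `Y_jl = P_jl(G_j0, .., G_jr)` with polynomials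
`P_jl` which approximate the `x_l`, because the blocks of free semicircular elements are free and the joint moments of free families are continuous functions of the
moments of the blocks.  If `Y` is a microstate of `y` then there is a microstate `A` of `s` with `Y ≈ p(A)`.  As in the case of `C([0,1])` most rotations `b` by the angle `θ` satisfy
`p(x, b)_j ≈ V G_j0 V*` up to `ε` for `j ∈ S`, and a comparison of the volume `(sin θ)^((k-1) N²)` of the `b` with the measure `ε^((m-1) N²)` of the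
tuples `(G_j0)`, `j ∈ S`, modulo unitary equivalence gives the inequality.
-/

open scoped InnerProductSpace
open Set

noncomputable section

namespace Pool.Agent.Results.MP_118406_an.FreeProductIsomorphisms

/-- The full Fock space of `ℂ^k`: a Hilbert space `H` with an orthonormal basis `e w` indexed by the words (lists) in
`k` letters, with the left and right creation operators `l i`, `r i` for the letters `i`. -/
structure FockSpace (k : ℕ) (H : Type) [NormedAddCommGroup H] [InnerProductSpace ℂ H] : Type where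
  /-- the basis -/
  e : HilbertBasis (List (Fin k)) ℂ H
  /-- the left creation operators -/
  l : Fin k → (H →L[ℂ] H)
  /-- the right creation operators -/
  r : Fin k → (H →L[ℂ] H)
  left : ∀ i w, l i (e w) = e (i :: w)
  right : ∀ i w, r i (e w) = e (w ++ [i])

variable {k : ℕ} {H : Type} [NormedAddCommGroup H] [InnerProductSpace ℂ H] [CompleteSpace H]

/-- The vacuum vector. -/
def FockSpace.vacuum (F : FockSpace k H) : H := F.e []

/-- The semicircular operators `s_i = l_i + l_i*`. -/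
def FockSpace.s (F : FockSpace k H) (i : Fin k) : H →L[ℂ] H :=
  F.l i + ContinuousLinearMap.adjoint (F.l i)

/-- The *-algebra of the noncommutative polynomials in the `s_i`. -/
def FockSpace.polynomials (F : FockSpace k H) : StarSubalgebra ℂ (H →L[ℂ] H) :=
  StarAlgebra.adjoin ℂ (range F.s)

/-- The C*-algebra generated by the semicircular operators. -/
def FockSpace.algebra (F : FockSpace k H) : StarSubalgebra ℂ (H →L[ℂ] H) :=
  F.polynomials.topologicalClosure

/-- The free difference quotient of `x` with respect to the generator `i`: the commutator of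
`r_i*` and `x`. -/
def FockSpace.D (F : FockSpace k H) (i : Fin k) (x : H →L[ℂ] H) : H →L[ℂ] H :=
  ContinuousLinearMap.adjoint (F.r i) * x - x * ContinuousLinearMap.adjoint (F.r i)

/-- Hilbert-Schmidt operators. -/
def FockSpace.HilbertSchmidt (F : FockSpace k H) (T : H →L[ℂ] H) : Prop :=
  Summable (fun w : List (Fin k) => ‖T (F.e w)‖ ^ 2)

/-- The number of letters of the word `w` different from `i`. -/
def others (i : Fin k) (w : List (Fin k)) : ℕ := w.countP fun a => decide (a ≠ i)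

/-- The rotation modulus of the vector `ξ`: `2 ∑ (1 - cos(θ)^m(w)) |⟨e_w, ξ⟩|²`, `m(w)` the number of letters of `w`
different from `i`. -/
def FockSpace.modulus (F : FockSpace k H) (i : Fin k) (θ : ℝ) (ξ : H) : ℝ :=
  2 * ∑' w : List (Fin k), (1 - Real.cos θ ^ others i w) * ‖⟪F.e w, ξ⟫_ℂ‖ ^ 2

/-- The joint moments of the generators `b_0, .., b_r` of `(B, τ)` are approximable: for all `m`, `γ` there are self-adjoint
elements `x_0 = s_0, x_1, .., x_r` of the C*-algebra generated by `r + 1` free semicircular elements `s_0, .., s_r` (on the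
Fock space `E`) whose moments up to the order `m` are those of the `b_l` up to `γ`.  The `b_l` are self-adjoint and
generate `B`. -/
structure Approximable {r : ℕ} {G : Type} [NormedAddCommGroup G] [InnerProductSpace ℂ G]
    [CompleteSpace G] (E : FockSpace (r + 1) G) {B : Type} [CStarAlgebra B] (τ : B →ₗ[ℂ] ℂ)
    (b : Fin (r + 1) → B) : Prop where
  selfAdjoint : ∀ l, IsSelfAdjoint (b l)
  generate : ∀ a : B, a ∈ closure (Algebra.adjoin ℂ (range b) : Set B)
  approx : ∀ (m : ℕ) (γ : ℝ), 0 < γ → ∃ x : Fin (r + 1) → (G →L[ℂ] G), x 0 = E.s 0 ∧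
    (∀ l, x l ∈ E.algebra ∧ IsSelfAdjoint (x l)) ∧ ∀ w : List (Fin (r + 1)), w.length ≤ m →
      ‖⟪E.vacuum, (w.map x).prod E.vacuum⟫_ℂ - τ (w.map b).prod‖ ≤ γ

variable {k' : ℕ}

/-- The unital *-homomorphisms `ψ_j : B_j → F.algebra` carry the vacuum state to `τ_j`, are free with respect to the vacuum
state, and their ranges generate together a weakly dense subalgebra: the semicircular operators are limits of bounded sequences of elements of
the algebra generated by the ranges with respect to the norm `‖y‖₂ = ‖y Ω‖`. -/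
structure FreeHoms (F : FockSpace k H) (B : Fin k' → Type) [∀ j, CStarAlgebra (B j)]
    (τ : ∀ j, B j →ₗ[ℂ] ℂ) (ψ : ∀ j, B j →⋆ₐ[ℂ] (H →L[ℂ] H)) : Prop where
  maps : ∀ j x, ψ j x ∈ F.algebra
  law : ∀ j x, ⟪F.vacuum, ψ j x F.vacuum⟫_ℂ = τ j x
  free : ∀ L : List (Σ j, B j), L ≠ [] → (L.map Sigma.fst).IsChain (· ≠ ·) →
    (∀ a ∈ L, τ a.1 a.2 = 0) → ⟪F.vacuum, (L.map fun a => ψ a.1 a.2).prod F.vacuum⟫_ℂ = 0
  dense : ∃ M : ℝ, ∀ (i : Fin k) (η : ℝ), 0 < η →
    ∃ x ∈ Algebra.adjoin ℂ (⋃ j, range (ψ j)), ‖x‖ ≤ M ∧ ‖(F.s i - x) F.vacuum‖ ≤ η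

/-- `A` is generated by the images of the unital *-homomorphisms `ρ_j : B_j → A`, which are free with respect to the
tracial state `ω` and carry it to `τ_j`; for instance the reduced free product of the `(B_j, τ_j)` if the `τ_j` are faithful
tracial states. -/
structure FreeProduct (B : Fin k' → Type) [∀ j, CStarAlgebra (B j)] (τ : ∀ j, B j →ₗ[ℂ] ℂ)
    {A : Type} [CStarAlgebra A] (ω : A →ₗ[ℂ] ℂ) (ρ : ∀ j, B j →⋆ₐ[ℂ] A) : Prop where
  bound : ∀ x, ‖ω x‖ ≤ ‖x‖
  one : ω 1 = 1
  trace : ∀ x y, ω (x * y) = ω (y * x)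
  law : ∀ j x, ω (ρ j x) = τ j x
  free : ∀ L : List (Σ j, B j), L ≠ [] → (L.map Sigma.fst).IsChain (· ≠ ·) →
    (∀ a ∈ L, τ a.1 a.2 = 0) → ω (L.map fun a => ρ a.1 a.2).prod = 0
  generate : ∀ x : A, x ∈ closure (Algebra.adjoin ℂ (⋃ j, range (ρ j)) : Set A)

/-- The data of the theorem: approximable self-adjoint generators `b_j0, .., b_jr` of the `(B_j, τ_j)` and a free family of
unital *-homomorphisms `ψ_j` with jointly weakly dense range. -/
structure Data {r : ℕ} {G : Type} [NormedAddCommGroup G] [InnerProductSpace ℂ G]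
    [CompleteSpace G] (F : FockSpace k H) (E : FockSpace (r + 1) G) (B : Fin k' → Type)
    [∀ j, CStarAlgebra (B j)] (τ : ∀ j, B j →ₗ[ℂ] ℂ) (b : ∀ j, Fin (r + 1) → B j)
    (ψ : ∀ j, B j →⋆ₐ[ℂ] (H →L[ℂ] H)) : Prop where
  approximable : ∀ j, Approximable E (τ j) (b j)
  free : FreeHoms F B τ ψ

/-- The four conclusions for operators `x_j`, `j ∈ S`, the letter `i` and the constant `c`: the lower bound for the rotation
moduli of the vectors `x_j Ω`; the lower bound for the number `d` of letters different from `i` that are needed to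
approximate them up to `ε`; the bound for the exponents `α` with `∑_w n(w)^α |⟨e_w, x_j Ω⟩|² < ∞`; if the `D_l x_j`,
`l ≠ i`, are Hilbert-Schmidt then `S` has at most `k` elements. -/
structure FockSpace.Irregular (F : FockSpace k H) (x : Fin k' → (H →L[ℂ] H)) (S : Finset (Fin k'))
    (i : Fin k) (c : ℝ) : Prop where
  rotation : ∀ θ : ℝ, 0 < θ → θ ≤ 1 →
    c * θ ^ (2 * ((k : ℝ) - 1) / ((S.card : ℝ) - 1)) ≤ ∑ j ∈ S, F.modulus i θ (x j F.vacuum)
  words : k ≤ S.card → ∀ (d : ℕ) (ε : ℝ) (ξ : Fin k' → H), 1 ≤ d → 0 < ε → ε ≤ 1 →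
    (∀ j ∈ S, ∀ w, d < others i w → ⟪F.e w, ξ j⟫_ℂ = 0) →
    (∀ j ∈ S, ‖x j F.vacuum - ξ j‖ ≤ ε) →
    c ≤ (d : ℝ) ^ (k - 1) * ε ^ (2 * (S.card - k))
  exponents : ∀ α : ℝ, 0 < α → α ≤ 1 →
    (∀ j ∈ S, Summable fun w => (others i w : ℝ) ^ α * ‖⟪F.e w, x j F.vacuum⟫_ℂ‖ ^ 2) →
    α * ((S.card : ℝ) - 1) ≤ (k : ℝ) - 1 ∧ (α < 1 → α * ((S.card : ℝ) - 1) < (k : ℝ) - 1)
  energy : (∀ j ∈ S, ∀ l, l ≠ i → F.HilbertSchmidt (F.D l (x j))) → S.card ≤ k

/-- If `A` is generated by free copies of C*-algebras `B_j` with a tracial state and `Φ` is an isomorphism from `A` to the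
C*-algebra generated by the semicircular operators, then the restrictions of `Φ` to the `B_j` are free with respect to the
vacuum state, and so on. -/
def FockSpace.Restrictions (F : FockSpace k H) : Prop :=
  ∀ (k' : ℕ) (B : Fin k' → Type) [∀ j, CStarAlgebra (B j)] (τ : ∀ j, B j →ₗ[ℂ] ℂ)
    (A : Type) [CStarAlgebra A] (ω : A →ₗ[ℂ] ℂ) (ρ : ∀ j, B j →⋆ₐ[ℂ] A)
    (Φ : A →⋆ₐ[ℂ] (H →L[ℂ] H)), FreeProduct B τ ω ρ → Function.Injective Φ →
    range Φ = F.algebra → FreeHoms F B τ fun j => Φ.comp (ρ j)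

theorem FockSpace.mem (F : FockSpace k H) (i : Fin k) : F.s i ∈ F.algebra :=
  F.polynomials.le_topologicalClosure (StarAlgebra.subset_adjoin ℂ _ ⟨i, rfl⟩)

/-! ### The proof -/

section Transport

/-- The unitary from `H` to the concrete Fock space. -/
def V (F : FockSpace k H) : H ≃ₗᵢ[ℂ] Pool.SI.Fk k := F.e.repr

theorem V_e (F : FockSpace k H) (w : List (Fin k)) : V F (F.e w) = Pool.SI.bs w := by
  classical
  have h := HilbertBasis.repr_self F.e w
  rw [V, h]
  rfl

theorem V_symm (F : FockSpace k H) (w : List (Fin k)) : (V F).symm (Pool.SI.bs w) = F.e w := by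
  rw [← V_e F w, LinearIsometryEquiv.symm_apply_apply]

/-- Conjugation by `V`. -/
def Ph (F : FockSpace k H) : (H →L[ℂ] H) ≃⋆ₐ[ℂ] (Pool.SI.Fk k →L[ℂ] Pool.SI.Fk k) :=
  (V F).conjStarAlgEquiv

theorem Ph_apply (F : FockSpace k H) (x : H →L[ℂ] H) (ξ : Pool.SI.Fk k) :
    Ph F x ξ = V F (x ((V F).symm ξ)) := rfl

theorem Ph_adjoint (F : FockSpace k H) (x : H →L[ℂ] H) :
    Ph F (ContinuousLinearMap.adjoint x) = ContinuousLinearMap.adjoint (Ph F x) := by
  rw [← ContinuousLinearMap.star_eq_adjoint, ← ContinuousLinearMap.star_eq_adjoint, map_star]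

theorem Ph_l (F : FockSpace k H) (i : Fin k) : Ph F (F.l i) = Pool.SI.lc i := by
  refine (Pool.SI.t_BAS k).2.2.2.2.1 _ _ fun w => ?_
  rw [Ph_apply, V_symm, F.left, V_e, Pool.SI.lc_bs]

theorem Ph_r (F : FockSpace k H) (i : Fin k) : Ph F (F.r i) = Pool.SI.rc i := by
  refine (Pool.SI.t_BAS k).2.2.2.2.1 _ _ fun w => ?_
  rw [Ph_apply, V_symm, F.right, V_e, Pool.SI.rc_bs]

theorem Ph_s (F : FockSpace k H) (i : Fin k) : Ph F (F.s i) = Pool.SI.sc i := by
  rw [FockSpace.s, map_add, Ph_adjoint, Ph_l]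
  rfl

theorem Ph_D (F : FockSpace k H) (i : Fin k) (x : H →L[ℂ] H) :
    Ph F (F.D i x) = Pool.SI.dq i (Ph F x) := by
  rw [FockSpace.D, map_sub, map_mul, map_mul, Ph_adjoint, Ph_r]
  rfl

theorem Ph_cont (F : FockSpace k H) : Continuous (Ph F) := by
  have h : (Ph F : (H →L[ℂ] H) → _) = fun x => ((V F : H →L[ℂ] Pool.SI.Fk k)).comp
      (x.comp ((V F).symm : Pool.SI.Fk k →L[ℂ] H)) := rfl
  rw [h]
  exact continuous_const.clm_comp (continuous_id.clm_comp continuous_const)

theorem Ph_symm_cont (F : FockSpace k H) : Continuous (Ph F).symm := by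
  have h : ((Ph F).symm : _ → (H →L[ℂ] H)) = fun x => (((V F).symm : Pool.SI.Fk k →L[ℂ] H)).comp
      (x.comp (V F : H →L[ℂ] Pool.SI.Fk k)) := rfl
  rw [h]
  exact continuous_const.clm_comp (continuous_id.clm_comp continuous_const)

theorem Ph_poly (F : FockSpace k H) {x : H →L[ℂ] H} (hx : x ∈ F.polynomials) :
    Ph F x ∈ StarAlgebra.adjoin ℂ (Set.range (Pool.SI.sc : Fin k → (Pool.SI.Fk k →L[ℂ] Pool.SI.Fk k))) := by
  have h : F.polynomials ≤ (StarAlgebra.adjoin ℂ (Set.range
      (Pool.SI.sc : Fin k → (Pool.SI.Fk k →L[ℂ] Pool.SI.Fk k)))).comap (Ph F).toStarAlgHom := by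
    refine StarAlgebra.adjoin_le ?_
    rintro _ ⟨i, rfl⟩
    change Ph F (F.s i) ∈ StarAlgebra.adjoin ℂ (Set.range
      (Pool.SI.sc : Fin k → (Pool.SI.Fk k →L[ℂ] Pool.SI.Fk k)))
    rw [Ph_s]
    exact StarAlgebra.subset_adjoin ℂ _ ⟨i, rfl⟩
  exact h hx

theorem Ph_symm_poly (F : FockSpace k H) {x : Pool.SI.Fk k →L[ℂ] Pool.SI.Fk k}
    (hx : x ∈ StarAlgebra.adjoin ℂ
      (Set.range (Pool.SI.sc : Fin k → (Pool.SI.Fk k →L[ℂ] Pool.SI.Fk k)))) :
    (Ph F).symm x ∈ F.polynomials := by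
  have h : StarAlgebra.adjoin ℂ (Set.range
      (Pool.SI.sc : Fin k → (Pool.SI.Fk k →L[ℂ] Pool.SI.Fk k))) ≤
      F.polynomials.comap (Ph F).symm.toStarAlgHom := by
    refine StarAlgebra.adjoin_le ?_
    rintro _ ⟨i, rfl⟩
    change (Ph F).symm (Pool.SI.sc i) ∈ F.polynomials
    rw [← Ph_s F, StarAlgEquiv.symm_apply_apply]
    exact StarAlgebra.subset_adjoin ℂ _ ⟨i, rfl⟩
  exact h hx

theorem Ph_mem (F : FockSpace k H) {x : H →L[ℂ] H} (hx : x ∈ F.algebra) :
    Ph F x ∈ Pool.SI.Alg k :=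
  map_mem_closure (Ph_cont F) hx fun _ hy => Ph_poly F hy

theorem Ph_symm_mem (F : FockSpace k H) {x : Pool.SI.Fk k →L[ℂ] Pool.SI.Fk k}
    (hx : x ∈ Pool.SI.Alg k) : (Ph F).symm x ∈ F.algebra :=
  map_mem_closure (Ph_symm_cont F) hx fun _ hy => Ph_symm_poly F hy

theorem Ph_hs (F : FockSpace k H) {T : H →L[ℂ] H} (hT : F.HilbertSchmidt T) :
    Pool.SI.HS (Ph F T) := by
  refine hT.congr fun w => ?_
  rw [Ph_apply, V_symm, LinearIsometryEquiv.norm_map]

theorem V_coef (F : FockSpace k H) (ξ : H) (w : List (Fin k)) : (V F ξ) w = ⟪F.e w, ξ⟫_ℂ :=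
  F.e.repr_apply_apply ξ w

theorem Ph_vac (F : FockSpace k H) (x : H →L[ℂ] H) :
    Ph F x (Pool.SI.vac k) = V F (x F.vacuum) := by
  rw [Ph_apply, Pool.SI.vac, V_symm]
  rfl

theorem Ph_norm (F : FockSpace k H) (x : H →L[ℂ] H) : ‖Ph F x‖ ≤ ‖x‖ := by
  refine ContinuousLinearMap.opNorm_le_bound _ (norm_nonneg _) fun ξ => ?_
  rw [Ph_apply, LinearIsometryEquiv.norm_map]
  refine (x.le_opNorm _).trans ?_
  rw [LinearIsometryEquiv.norm_map]

theorem V_modulus {n : ℕ} (F : FockSpace (n + 1) H) (θ : ℝ) (ξ : H) :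
    F.modulus 0 θ ξ = Pool.FR.Nth θ (V F ξ) := by
  rw [FockSpace.modulus, Pool.FR.Nth]
  simp only [V_coef]
  rfl

theorem V_vac (F : FockSpace k H) : V F F.vacuum = Pool.SI.vac k := by
  rw [FockSpace.vacuum, V_e]
  rfl

theorem inner_Ph (F : FockSpace k H) (x : H →L[ℂ] H) :
    ⟪Pool.SI.vac k, Ph F x (Pool.SI.vac k)⟫_ℂ = ⟪F.vacuum, x F.vacuum⟫_ℂ := by
  rw [Ph_vac, ← V_vac F, LinearIsometryEquiv.inner_map_map]

theorem Ph_list (F : FockSpace k H) {ι : Type} (x : ι → (H →L[ℂ] H)) (w : List ι) :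
    (w.map fun i => Ph F (x i)).prod = Ph F (w.map x).prod := by
  rw [map_list_prod, List.map_map]
  rfl

theorem hom_list {B : Type} [CStarAlgebra B] (φ : B →⋆ₐ[ℂ] (H →L[ℂ] H)) {ι : Type} (x : ι → B)
    (w : List ι) : (w.map fun i => φ (x i)).prod = φ (w.map x).prod := by
  rw [map_list_prod, List.map_map]
  rfl

/-- The family of the generators of all blocks. -/
def fam (F : FockSpace k H) {B : Fin k' → Type} [∀ j, CStarAlgebra (B j)] {r : ℕ}
    (ψ : ∀ j, B j →⋆ₐ[ℂ] (H →L[ℂ] H)) (b : ∀ j, Fin (r + 1) → B j) (j : Fin k')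
    (l : Fin (r + 1)) : Pool.SI.Fk k →L[ℂ] Pool.SI.Fk k := Ph F (ψ j (b j l))

theorem ev_fam (F : FockSpace k H) {B : Fin k' → Type} [∀ j, CStarAlgebra (B j)] {r : ℕ}
    (ψ : ∀ j, B j →⋆ₐ[ℂ] (H →L[ℂ] H)) (b : ∀ j, Fin (r + 1) → B j) (j : Fin k')
    (q : FreeAlgebra ℂ (Fin (r + 1))) :
    Pool.FR.ev (fam F ψ b j) q = Ph F (ψ j (Pool.FR.ev (b j) q)) := by
  have h1 := Pool.FR.GNF_hom ((Ph F).toStarAlgHom.comp (ψ j)).toAlgHom (b j) q
  exact h1.symm

theorem ev_inc (F : FockSpace k H) {B : Fin k' → Type} [∀ j, CStarAlgebra (B j)] {r : ℕ}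
    (ψ : ∀ j, B j →⋆ₐ[ℂ] (H →L[ℂ] H)) (b : ∀ j, Fin (r + 1) → B j) (j : Fin k')
    (q : FreeAlgebra ℂ (Fin (r + 1))) :
    Pool.FR.ev (fun a : Fin k' × Fin (r + 1) => fam F ψ b a.1 a.2) (Pool.FP.inc j q) =
      Ph F (ψ j (Pool.FR.ev (b j) q)) := by
  rw [← ev_fam]
  have h : (Pool.FR.ev (fun a : Fin k' × Fin (r + 1) => fam F ψ b a.1 a.2)).comp
      (Pool.FP.inc j) = Pool.FR.ev (fam F ψ b j) := by
    refine FreeAlgebra.hom_ext ?_
    funext l
    simp [Pool.FP.inc]
  exact DFunLike.congr_fun h q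

theorem mo_fam (F : FockSpace (k + 1) H) {B : Fin k' → Type} [∀ j, CStarAlgebra (B j)] {r : ℕ}
    {τ : ∀ j, B j →ₗ[ℂ] ℂ} (ψ : ∀ j, B j →⋆ₐ[ℂ] (H →L[ℂ] H)) (b : ∀ j, Fin (r + 1) → B j)
    (hψ : FreeHoms F B τ ψ) (j : Fin k') (w : List (Fin (r + 1))) :
    Pool.FP.mo (fam F ψ b j) w = τ j (w.map (b j)).prod := by
  rw [Pool.FP.mo]
  have h1 : (w.map (fam F ψ b j)).prod = Ph F (ψ j (w.map (b j)).prod) := by
    rw [← hom_list, ← Ph_list]
    rfl
  rw [h1, inner_Ph, hψ.law]

theorem hom_cont {B : Type} [CStarAlgebra B] (φ : B →⋆ₐ[ℂ] (H →L[ℂ] H)) : Continuous φ :=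
  AddMonoidHomClass.continuous_of_bound φ 1 fun x => by
    rw [one_mul]
    exact NonUnitalStarAlgHom.norm_apply_le φ x

theorem close_fam (F : FockSpace k H) {B : Fin k' → Type} [∀ j, CStarAlgebra (B j)] {r : ℕ}
    (ψ : ∀ j, B j →⋆ₐ[ℂ] (H →L[ℂ] H)) (b : ∀ j, Fin (r + 1) → B j)
    (hb : ∀ j (a : B j), a ∈ closure (Algebra.adjoin ℂ (range (b j)) : Set (B j)))
    (x : H →L[ℂ] H) (hx : x ∈ Algebra.adjoin ℂ (⋃ j, range (ψ j))) :
    Ph F x ∈ closure (range (Pool.FR.ev fun a : Fin k' × Fin (r + 1) => fam F ψ b a.1 a.2)) := by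
  set e := Pool.FR.ev (fun a : Fin k' × Fin (r + 1) => fam F ψ b a.1 a.2) with he
  have hS : (e.range.topologicalClosure : Set (Pool.SI.Fk k →L[ℂ] Pool.SI.Fk k)) =
      closure (range e) := by
    rw [Subalgebra.topologicalClosure_coe, AlgHom.coe_range]
  rw [← hS]
  have h : Algebra.adjoin ℂ (⋃ j, range (ψ j)) ≤
      (e.range.topologicalClosure).comap (Ph F).toStarAlgHom.toAlgHom := by
    refine Algebra.adjoin_le ?_
    intro z hz
    obtain ⟨j, a, rfl⟩ := mem_iUnion.1 hz
    change Ph F (ψ j a) ∈ (e.range.topologicalClosure : Set _)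
    rw [hS]
    have hc : Continuous fun a : B j => Ph F (ψ j a) := (Ph_cont F).comp (hom_cont (ψ j))
    refine map_mem_closure (f := fun a : B j => Ph F (ψ j a)) (t := range e) hc (hb j a) ?_
    intro c hc'
    have h2 : Algebra.adjoin ℂ (range (b j)) ≤ (e.range).comap
        ((Ph F).toStarAlgHom.comp (ψ j)).toAlgHom := by
      refine Algebra.adjoin_le ?_
      rintro _ ⟨l, rfl⟩
      refine ⟨FreeAlgebra.ι ℂ (j, l), ?_⟩
      simp [he, fam]
    have h3 := h2 hc'
    obtain ⟨q, hq⟩ := h3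
    exact ⟨q, hq⟩
  exact h hx

theorem cop_of {n : ℕ} (F : FockSpace (n + 1) H) {r : ℕ} {G : Type} [NormedAddCommGroup G]
    [InnerProductSpace ℂ G] [CompleteSpace G] (E : FockSpace (r + 1) G) {B : Fin k' → Type}
    [∀ j, CStarAlgebra (B j)] {τ : ∀ j, B j →ₗ[ℂ] ℂ} (ψ : ∀ j, B j →⋆ₐ[ℂ] (H →L[ℂ] H))
    (b : ∀ j, Fin (r + 1) → B j) (hb : ∀ j, Approximable E (τ j) (b j))
    (hψ : FreeHoms F B τ ψ) : Pool.FP.Cop n k' r (fam F ψ b) where
  mem j l := Ph_mem F (hψ.maps _ _)
  sa j l := by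
    rw [fam, ← map_star, ← map_star, ((hb j).selfAdjoint l).star_eq]
  apx j m γ hγ := by
    obtain ⟨x, hx0, hx, hxm⟩ := (hb j).approx m γ hγ
    refine ⟨fun l => Ph E (x l), fun l => Ph_mem E (hx l).1, fun l => ?_, ?_, fun w hw => ?_⟩
    · rw [← map_star, (hx l).2.star_eq]
    · rw [hx0, Ph_s]
    · have h1 : Pool.FP.mo (fun l => Ph E (x l)) w = ⟪E.vacuum, (w.map x).prod E.vacuum⟫_ℂ := by
        rw [Pool.FP.mo, Ph_list, inner_Ph]
      rw [h1, mo_fam F ψ b hψ]
      exact hxm w hw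
  free := by
    refine ⟨?_, fun L hL hc hz => ?_⟩
    · change ⟪Pool.SI.vac (n + 1), (Pool.FR.ev (fun a : Fin k' × Fin (r + 1) => fam F ψ b a.1 a.2) 1 : Pool.SI.Fk (n + 1) →L[ℂ] Pool.SI.Fk (n + 1)) (Pool.SI.vac (n + 1))⟫_ℂ = 1
      rw [map_one]
      change ⟪Pool.SI.vac (n + 1), Pool.SI.vac (n + 1)⟫_ℂ = 1
      rw [inner_self_eq_norm_sq_to_K, Pool.SI.IMP_vac]
      simp
    · have h1 := hψ.free (L.map fun a => ⟨a.1, Pool.FR.ev (b a.1) a.2⟩) (by simpa using hL)
        (by simpa [Function.comp_def] using hc) (fun a ha => by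
          obtain ⟨c, hc1, rfl⟩ := List.mem_map.1 ha
          have h2 := hz c hc1
          change ⟪Pool.SI.vac (n + 1), (Pool.FR.ev (fun a : Fin k' × Fin (r + 1) => fam F ψ b a.1 a.2) (Pool.FP.inc c.1 c.2) : Pool.SI.Fk (n + 1) →L[ℂ] Pool.SI.Fk (n + 1))
            (Pool.SI.vac (n + 1))⟫_ℂ = 0 at h2
          rw [ev_inc, inner_Ph, hψ.law] at h2
          exact h2)
      change ⟪Pool.SI.vac (n + 1), (Pool.FR.ev (fun a : Fin k' × Fin (r + 1) => fam F ψ b a.1 a.2) ((L.map fun a => Pool.FP.inc a.1 a.2).prod) : Pool.SI.Fk (n + 1) →L[ℂ] Pool.SI.Fk (n + 1)) (Pool.SI.vac (n + 1))⟫_ℂ = 0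
      rw [map_list_prod, List.map_map]
      have h3 : (L.map ((Pool.FR.ev fun a : Fin k' × Fin (r + 1) => fam F ψ b a.1 a.2) ∘
          fun a => Pool.FP.inc a.1 a.2)).prod =
          Ph F ((L.map fun a => (⟨a.1, Pool.FR.ev (b a.1) a.2⟩ : Σ j, B j)).map
            fun a => ψ a.1 a.2).prod := by
        rw [List.map_map, map_list_prod, List.map_map]
        congr 1
        refine List.map_congr_left fun a _ => ?_
        exact ev_inc F ψ b a.1 a.2
      rw [h3, inner_Ph]
      exact h1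
  gen := by
    obtain ⟨M, hM⟩ := hψ.dense
    refine ⟨M + 1, fun i η hη => ?_⟩
    obtain ⟨x, hx, hx1, hx2⟩ := hM i (η / 2) (by positivity)
    have h1 := close_fam F ψ b (fun j => (hb j).generate) x hx
    obtain ⟨_, ⟨q, rfl⟩, hq⟩ := Metric.mem_closure_iff.1 h1 (min 1 (η / 2))
      (lt_min one_pos (by positivity))
    rw [dist_eq_norm] at hq
    refine ⟨q, ?_, ?_⟩
    · have h2 : Pool.FR.ev (fun a : Fin k' × Fin (r + 1) => fam F ψ b a.1 a.2) q =
          Ph F x - (Ph F x - Pool.FR.ev (fun a => fam F ψ b a.1 a.2) q) := by abel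
      rw [h2]
      refine (norm_sub_le _ _).trans ?_
      refine add_le_add ((Ph_norm F x).trans hx1) (hq.le.trans (min_le_left _ _))
    · have h2 : (Pool.SI.sc i - Pool.FR.ev (fun a : Fin k' × Fin (r + 1) => fam F ψ b a.1 a.2) q)
          (Pool.SI.vac (n + 1)) = (Ph F (F.s i - x)) (Pool.SI.vac (n + 1)) +
            (Ph F x - Pool.FR.ev (fun a => fam F ψ b a.1 a.2) q) (Pool.SI.vac (n + 1)) := by
        rw [map_sub, Ph_s]
        simp
      rw [h2]
      refine (norm_add_le _ _).trans ?_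
      have h3 : ‖(Ph F (F.s i - x)) (Pool.SI.vac (n + 1))‖ ≤ η / 2 := by
        rw [Ph_vac, LinearIsometryEquiv.norm_map]
        exact hx2
      have h4 : ‖(Ph F x - Pool.FR.ev (fun a : Fin k' × Fin (r + 1) => fam F ψ b a.1 a.2) q)
          (Pool.SI.vac (n + 1))‖ ≤ η / 2 := by
        refine (ContinuousLinearMap.le_opNorm _ _).trans ?_
        rw [Pool.SI.IMP_vac, mul_one]
        exact hq.le.trans (min_le_right _ _)
      linarith

end Transport

section Relabel

/-- Renaming the letters. -/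
def FockSpace.relabel (F : FockSpace k H) (σ : Equiv.Perm (Fin k)) : FockSpace k H where
  e := HilbertBasis.mk (v := fun w : List (Fin k) => F.e (w.map σ))
    (F.e.orthonormal.comp _ (List.map_injective_iff.2 σ.injective)) (by
      have h : Set.range (fun w : List (Fin k) => F.e (w.map σ)) = Set.range F.e :=
        (List.map_surjective_iff.2 σ.surjective).range_comp F.e
      rw [h, F.e.dense_span])
  l i := F.l (σ i)
  r i := F.r (σ i)
  left i w := by
    rw [HilbertBasis.coe_mk]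
    exact F.left (σ i) (w.map σ)
  right i w := by
    rw [HilbertBasis.coe_mk]
    simp only [List.map_append, List.map_cons, List.map_nil]
    exact F.right (σ i) (w.map σ)

theorem relabel_e (F : FockSpace k H) (σ : Equiv.Perm (Fin k)) (w : List (Fin k)) :
    (F.relabel σ).e w = F.e (w.map σ) := by
  rw [FockSpace.relabel, HilbertBasis.coe_mk]

theorem relabel_vacuum (F : FockSpace k H) (σ : Equiv.Perm (Fin k)) :
    (F.relabel σ).vacuum = F.vacuum := by
  rw [FockSpace.vacuum, relabel_e]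
  rfl

theorem relabel_s (F : FockSpace k H) (σ : Equiv.Perm (Fin k)) (i : Fin k) :
    (F.relabel σ).s i = F.s (σ i) := rfl

theorem relabel_algebra (F : FockSpace k H) (σ : Equiv.Perm (Fin k)) :
    F.algebra = (F.relabel σ).algebra := by
  have h : Set.range (F.relabel σ).s = Set.range F.s := by
    have : (F.relabel σ).s = F.s ∘ σ := funext fun i => relabel_s F σ i
    rw [this]
    exact σ.surjective.range_comp _
  rw [FockSpace.algebra, FockSpace.algebra, FockSpace.polynomials, FockSpace.polynomials, h]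

theorem relabel_modulus {n : ℕ} (F : FockSpace (n + 1) H) (i : Fin (n + 1)) (θ : ℝ) (ξ : H) :
    (F.relabel (Equiv.swap 0 i)).modulus 0 θ ξ = F.modulus i θ ξ := by
  have hinv : Function.Involutive (fun w : List (Fin (n + 1)) => w.map (Equiv.swap 0 i)) := by
    intro w
    simp only [List.map_map]
    have : (⇑(Equiv.swap 0 i) ∘ ⇑(Equiv.swap 0 i)) = (id : Fin (n + 1) → Fin (n + 1)) := by
      funext a
      simp
    rw [this, List.map_id]
  have ho : ∀ w : List (Fin (n + 1)), others 0 w = others i (w.map (Equiv.swap 0 i)) := by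
    intro w
    rw [others, others, List.countP_map]
    refine List.countP_congr fun a _ => ?_
    have : a = 0 ↔ Equiv.swap 0 i a = i := by
      constructor
      · rintro rfl
        exact Equiv.swap_apply_left _ _
      · intro h
        have := congrArg (Equiv.swap 0 i) h
        simpa using this
    simp only [Function.comp, decide_eq_true_eq, ne_eq, this]
  rw [FockSpace.modulus, FockSpace.modulus]
  congr 1
  rw [← (hinv.toPerm _).tsum_eq
    (fun w : List (Fin (n + 1)) => (1 - Real.cos θ ^ others i w) * ‖⟪F.e w, ξ⟫_ℂ‖ ^ 2)]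
  refine tsum_congr fun w => ?_
  rw [ho, relabel_e]
  rfl

theorem relabel_hs (F : FockSpace k H) (σ : Equiv.Perm (Fin k)) (T : H →L[ℂ] H)
    (h : F.HilbertSchmidt T) : (F.relabel σ).HilbertSchmidt T := by
  have := h.comp_injective (List.map_injective_iff.2 σ.injective)
  refine this.congr fun w => ?_
  rw [relabel_e]
  rfl

theorem relabel_free (F : FockSpace k H) {B : Fin k' → Type} [∀ j, CStarAlgebra (B j)]
    {τ : ∀ j, B j →ₗ[ℂ] ℂ} {ψ : ∀ j, B j →⋆ₐ[ℂ] (H →L[ℂ] H)} (h : FreeHoms F B τ ψ)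
    (σ : Equiv.Perm (Fin k)) : FreeHoms (F.relabel σ) B τ ψ where
  maps j x := (relabel_algebra F σ) ▸ h.maps j x
  law j x := by rw [relabel_vacuum]; exact h.law j x
  free L h1 h2 h3 := by rw [relabel_vacuum]; exact h.free L h1 h2 h3
  dense := by
    obtain ⟨M, hM⟩ := h.dense
    refine ⟨M, fun i η hη => ?_⟩
    obtain ⟨x, hx, hx1, hx2⟩ := hM (σ i) η hη
    refine ⟨x, hx, hx1, ?_⟩
    rw [relabel_vacuum]
    exact hx2

end Relabel

section Products

theorem Ph_symm_norm (F : FockSpace k H) (z : Pool.SI.Fk k →L[ℂ] Pool.SI.Fk k) :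
    ‖(Ph F).symm z‖ ≤ ‖z‖ := by
  refine ContinuousLinearMap.opNorm_le_bound _ (norm_nonneg _) fun ξ => ?_
  change ‖(V F).symm (z (V F ξ))‖ ≤ _
  rw [LinearIsometryEquiv.norm_map]
  refine (z.le_opNorm _).trans ?_
  rw [LinearIsometryEquiv.norm_map]

/-- An isomorphism onto the C*-algebra generated by the semicircular operators carries a tracial state to the
vacuum state. -/
theorem trace_of_iso (hk : 2 ≤ k) (F : FockSpace k H) {A : Type} [CStarAlgebra A]
    {ω : A →ₗ[ℂ] ℂ} (hb : ∀ x, ‖ω x‖ ≤ ‖x‖) (h1 : ω 1 = 1) (ht : ∀ x y, ω (x * y) = ω (y * x))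
    (Φ : A →⋆ₐ[ℂ] (H →L[ℂ] H)) (hinj : Function.Injective Φ) (hr : range Φ = F.algebra) (x : A) :
    ⟪F.vacuum, Φ x F.vacuum⟫_ℂ = ω x := by
  have hex : ∀ z : Pool.SI.Alg k, ∃ a : A, Φ a = (Ph F).symm z := by
    intro z
    have : (Ph F).symm (z : Pool.SI.Fk k →L[ℂ] Pool.SI.Fk k) ∈ (F.algebra : Set (H →L[ℂ] H)) :=
      Ph_symm_mem F z.2
    rw [← hr] at this
    exact this
  choose g hg using hex
  have hgn : ∀ z : Pool.SI.Alg k, ‖g z‖ ≤ ‖z‖ := by
    intro z
    have h2 : ‖Φ (g z)‖ = ‖g z‖ := NonUnitalStarAlgHom.norm_map Φ hinj (g z)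
    rw [← h2, hg]
    exact Ph_symm_norm F z
  let σ : Pool.SI.Alg k →L[ℂ] ℂ :=
    LinearMap.mkContinuous
      { toFun := fun z => ω (g z)
        map_add' := fun z z' => by
          have h3 : g (z + z') = g z + g z' := by
            refine hinj ?_
            rw [map_add, hg, hg, hg]
            change (Ph F).symm ((z : Pool.SI.Fk k →L[ℂ] Pool.SI.Fk k) + z') = _
            rw [map_add]
          rw [h3, map_add]
        map_smul' := fun c z => by
          have h3 : g (c • z) = c • g z := by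
            refine hinj ?_
            rw [map_smul, hg, hg]
            change (Ph F).symm (c • (z : Pool.SI.Fk k →L[ℂ] Pool.SI.Fk k)) = _
            rw [map_smul]
          rw [h3, map_smul, RingHom.id_apply] } 1 (fun z => by
        rw [one_mul]
        exact (hb _).trans (hgn z))
  have hσ : ∀ z, σ z = ω (g z) := fun z => rfl
  have h4 := Pool.SI.t_UTF k hk σ (fun z z' => by
    have h3 : ∀ z z' : Pool.SI.Alg k, g (z * z') = g z * g z' := by
      intro z z'
      refine hinj ?_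
      rw [map_mul, hg, hg, hg]
      change (Ph F).symm ((z : Pool.SI.Fk k →L[ℂ] Pool.SI.Fk k) * z') = _
      rw [map_mul]
    rw [hσ, hσ, h3, h3, ht]) (by
    have h3 : g 1 = 1 := by
      refine hinj ?_
      rw [hg, map_one]
      change (Ph F).symm 1 = _
      rw [map_one]
    rw [hσ, h3, h1]) ⟨Ph F (Φ x), Ph_mem F (by
      have : Φ x ∈ (F.algebra : Set (H →L[ℂ] H)) := by rw [← hr]; exact mem_range_self x
      exact this)⟩
  have h5 : g ⟨Ph F (Φ x), Ph_mem F (by
      have : Φ x ∈ (F.algebra : Set (H →L[ℂ] H)) := by rw [← hr]; exact mem_range_self x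
      exact this)⟩ = x := by
    refine hinj ?_
    rw [hg, StarAlgEquiv.symm_apply_apply]
  rw [hσ, h5] at h4
  rw [h4, ← inner_Ph]

/-- The restrictions of an isomorphism from a free product. -/
theorem free_of_iso (hk : 2 ≤ k) (F : FockSpace k H) {B : Fin k' → Type}
    [∀ j, CStarAlgebra (B j)] {τ : ∀ j, B j →ₗ[ℂ] ℂ} {A : Type} [CStarAlgebra A] {ω : A →ₗ[ℂ] ℂ}
    {ρ : ∀ j, B j →⋆ₐ[ℂ] A} (hA : FreeProduct B τ ω ρ) (Φ : A →⋆ₐ[ℂ] (H →L[ℂ] H))
    (hinj : Function.Injective Φ) (hr : range Φ = F.algebra) :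
    FreeHoms F B τ fun j => Φ.comp (ρ j) := by
  have htr := trace_of_iso hk F hA.bound hA.one hA.trace Φ hinj hr
  have hmem : ∀ x, Φ x ∈ F.algebra := by
    intro x
    have : Φ x ∈ (F.algebra : Set (H →L[ℂ] H)) := by rw [← hr]; exact mem_range_self x
    exact this
  refine ⟨fun j x => hmem _, fun j x => ?_, fun L h1 h2 h3 => ?_, ?_⟩
  · rw [← hA.law]
    exact htr _
  · have h4 : (L.map fun a => (Φ.comp (ρ a.1)) a.2).prod =
        Φ (L.map fun a => ρ a.1 a.2).prod := by
      rw [map_list_prod, List.map_map]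
      rfl
    rw [h4, htr]
    exact hA.free L h1 h2 h3
  · refine ⟨(∑ i, ‖F.s i‖) + 1, fun i η hη => ?_⟩
    obtain ⟨a, ha⟩ : ∃ a : A, Φ a = F.s i := by
      have : F.s i ∈ (F.algebra : Set (H →L[ℂ] H)) := F.mem i
      rw [← hr] at this
      exact this
    obtain ⟨c, hc, hca⟩ := Metric.mem_closure_iff.1 (hA.generate a) (min 1 (η / (‖F.vacuum‖ + 1)))
      (lt_min one_pos (by positivity))
    rw [dist_eq_norm] at hca
    have h5 : ‖F.s i - Φ c‖ ≤ min 1 (η / (‖F.vacuum‖ + 1)) := by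
      rw [← ha, ← map_sub]
      exact (NonUnitalStarAlgHom.norm_apply_le Φ (a - c)).trans hca.le
    refine ⟨Φ c, ?_, ?_, ?_⟩
    · have h6 : Algebra.adjoin ℂ (⋃ j, range (ρ j)) ≤
          (Algebra.adjoin ℂ (⋃ j, range (Φ.comp (ρ j)))).comap Φ.toAlgHom := by
        refine Algebra.adjoin_le ?_
        intro z hz
        obtain ⟨j, b, rfl⟩ := mem_iUnion.1 hz
        exact Algebra.subset_adjoin (mem_iUnion.2 ⟨j, b, rfl⟩)
      exact h6 hc
    · have h7 : Φ c = F.s i - (F.s i - Φ c) := by abel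
      rw [h7]
      refine (norm_sub_le _ _).trans ?_
      refine add_le_add ?_ (h5.trans (min_le_left _ _))
      exact Finset.single_le_sum (f := fun i => ‖F.s i‖) (fun i _ => norm_nonneg _)
        (Finset.mem_univ i)
    · refine (ContinuousLinearMap.le_opNorm _ _).trans ?_
      have h8 := h5.trans (min_le_right _ _)
      have h9 : 0 < ‖F.vacuum‖ + 1 := by positivity
      calc ‖F.s i - Φ c‖ * ‖F.vacuum‖ ≤ η / (‖F.vacuum‖ + 1) * (‖F.vacuum‖ + 1) :=
            mul_le_mul h8 (by linarith) (norm_nonneg _) (by positivity)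
        _ = η := by field_simp

end Products

/-- **Theorem.**  Let `k ≥ 1`.

(1) For every `m ≥ 2` there is a constant `c > 0` (depending on `k`, `m` only) such that for all full Fock spaces `F` of `ℂ^k` and `E` of
`ℂ^(r+1)`, all `k'` and all unital C*-algebras `B_j` with functionals `τ_j` and approximable self-adjoint generators `b_j0, .., b_jr`,
`j ≤ k'` (`b_j0` is semicircular), all free families of unital *-homomorphisms `ψ_j` from `B_j` to the C*-algebra generated by the semicircular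
operators of `F` with jointly weakly dense range, every set `S` of `m` indices and every letter `i` the following holds.
(a) For every `θ ∈ (0, 1]` the sum over `j ∈ S` of the rotation moduli of `ψ_j(b_j0) Ω` is at least `c θ^(2 (k-1)/(m-1))`.  (b) If `m ≥ k` and if the
vectors `ψ_j(b_j0) Ω`, `j ∈ S`, are approximated up to `ε ≤ 1` by vectors `ξ_j` whose words have at most `d ≥ 1` letters different from
`i`, then `d^(k-1) ε^(2 (m-k)) ≥ c`.  (c) If `0 < α ≤ 1` and `∑_w n(w)^α |⟨e_w, ψ_j(b_j0) Ω⟩|² < ∞` for all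
`j ∈ S`, then `α (m-1) ≤ k-1`, and `α (m-1) < k-1` if `α < 1`.  (d) If the free difference quotients `D_l ψ_j(b_j0)` are Hilbert-Schmidt
operators for all `j ∈ S` and all `l ≠ i` then `m ≤ k`.

(2) If `k ≥ 2` and `A` is generated by free copies of the `B_j` with a tracial state and `Φ` is an isomorphism from `A` to the C*-algebra generated
by the semicircular operators of `F`, then the restrictions of `Φ` to the `B_j` are such a family. -/
theorem result (k : ℕ) (hk : 1 ≤ k) :
    (∀ m : ℕ, 2 ≤ m → ∃ c : ℝ, 0 < c ∧ ∀ (k' r : ℕ)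
      (H : Type) [NormedAddCommGroup H] [InnerProductSpace ℂ H] [CompleteSpace H]
      (G : Type) [NormedAddCommGroup G] [InnerProductSpace ℂ G] [CompleteSpace G]
      (F : FockSpace k H) (E : FockSpace (r + 1) G)
      (B : Fin k' → Type) [∀ j, CStarAlgebra (B j)] (τ : ∀ j, B j →ₗ[ℂ] ℂ)
      (b : ∀ j, Fin (r + 1) → B j) (ψ : ∀ j, B j →⋆ₐ[ℂ] (H →L[ℂ] H)), Data F E B τ b ψ →
      ∀ S : Finset (Fin k'), S.card = m → ∀ i : Fin k, F.Irregular (fun j => ψ j (b j 0)) S i c) ∧
    (2 ≤ k → ∀ (H : Type) [NormedAddCommGroup H] [InnerProductSpace ℂ H] [CompleteSpace H]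
      (F : FockSpace k H), F.Restrictions) := by
  obtain ⟨n, rfl⟩ : ∃ n, k = n + 1 := ⟨k - 1, by omega⟩
  have en : (((n + 1 : ℕ) : ℝ) - 1) = n := by push_cast; ring
  have hcnt : ∀ (i : Fin (n + 1)) (w : List (Fin (n + 1))),
      Pool.FR.cnt w = others i (w.map (Equiv.swap 0 i)) := by
    intro i w
    rw [others, Pool.FR.cnt, List.countP_map]
    refine List.countP_congr fun a _ => ?_
    have : a = 0 ↔ Equiv.swap 0 i a = i := by
      constructor
      · rintro rfl
        exact Equiv.swap_apply_left _ _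
      · intro h
        have := congrArg (Equiv.swap 0 i) h
        simpa using this
    simp only [Function.comp, decide_eq_true_eq, ne_eq, this]
  -- the data for the flat family
  have hdat : ∀ (k' r : ℕ)
      (H : Type) [NormedAddCommGroup H] [InnerProductSpace ℂ H] [CompleteSpace H]
      (G : Type) [NormedAddCommGroup G] [InnerProductSpace ℂ G] [CompleteSpace G]
      (F : FockSpace (n + 1) H) (E : FockSpace (r + 1) G)
      (B : Fin k' → Type) [∀ j, CStarAlgebra (B j)] (τ : ∀ j, B j →ₗ[ℂ] ℂ)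
      (b : ∀ j, Fin (r + 1) → B j) (ψ : ∀ j, B j →⋆ₐ[ℂ] (H →L[ℂ] H)),
      (∀ j, Approximable E (τ j) (b j)) → FreeHoms F B τ ψ →
      ∀ (S : Finset (Fin k')) (i : Fin (n + 1)),
        Pool.FP.Dat n (k' * (r + 1)) (Pool.FP.fst0 r S)
          (Pool.FP.flat (fam (F.relabel (Equiv.swap 0 i)) ψ b)) := by
    intro k' r H _ _ _ G _ _ _ F E B _ τ b ψ hb hψ S i
    exact Pool.FP.t_CPD n k' r _ (cop_of _ E ψ b hb (relabel_free F hψ _)) S
  have hsum : ∀ {k' r : ℕ} (S : Finset (Fin k')) (f : Fin (k' * (r + 1)) → ℝ),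
      ∑ j ∈ Pool.FP.fst0 r S, f j = ∑ j ∈ S, f (finProdFinEquiv (j, (0 : Fin (r + 1)))) := by
    intro k' r S f
    rw [Pool.FP.fst0, Finset.sum_map]
    rfl
  have hmem : ∀ {k' r : ℕ} (S : Finset (Fin k')) (a : Fin (k' * (r + 1))),
      a ∈ Pool.FP.fst0 r S → ∃ j ∈ S, finProdFinEquiv (j, (0 : Fin (r + 1))) = a := by
    intro k' r S a ha
    obtain ⟨j, hj, rfl⟩ := Finset.mem_map.1 ha
    exact ⟨j, hj, rfl⟩
  have hcard : ∀ {k' : ℕ} (r : ℕ) (S : Finset (Fin k')), (Pool.FP.fst0 r S).card = S.card :=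
    fun r S => Finset.card_map _
  have hflat : ∀ {k' r : ℕ} (y : Fin k' → Fin (r + 1) →
      (Pool.SI.Fk (n + 1) →L[ℂ] Pool.SI.Fk (n + 1))) (j : Fin k'),
      Pool.FP.flat y (finProdFinEquiv (j, (0 : Fin (r + 1)))) = y j 0 := by
    intro k' r y j
    simp [Pool.FP.flat]
  have main : ∀ (k' r : ℕ)
      (H : Type) [NormedAddCommGroup H] [InnerProductSpace ℂ H] [CompleteSpace H]
      (G : Type) [NormedAddCommGroup G] [InnerProductSpace ℂ G] [CompleteSpace G]
      (F : FockSpace (n + 1) H) (E : FockSpace (r + 1) G)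
      (B : Fin k' → Type) [∀ j, CStarAlgebra (B j)] (τ : ∀ j, B j →ₗ[ℂ] ℂ)
      (b : ∀ j, Fin (r + 1) → B j) (ψ : ∀ j, B j →⋆ₐ[ℂ] (H →L[ℂ] H)),
      (∀ j, Approximable E (τ j) (b j)) → FreeHoms F B τ ψ →
      ∀ (S : Finset (Fin k')) (i : Fin (n + 1)),
        (2 ≤ S.card → ∀ α : ℝ, 0 < α → α ≤ 1 →
          (∀ j ∈ S, Summable fun w => (others i w : ℝ) ^ α *
            ‖⟪F.e w, ψ j (b j 0) F.vacuum⟫_ℂ‖ ^ 2) →
          α * ((S.card : ℝ) - 1) ≤ ((n + 1 : ℕ) : ℝ) - 1 ∧
            (α < 1 → α * ((S.card : ℝ) - 1) < ((n + 1 : ℕ) : ℝ) - 1)) ∧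
        ((∀ j ∈ S, ∀ l, l ≠ i → F.HilbertSchmidt (F.D l (ψ j (b j 0)))) → S.card ≤ n + 1) := by
    intro k' r H _ _ _ G _ _ _ F E B _ τ b ψ hb hψ S i
    have key : 2 ≤ S.card → ∀ α : ℝ, 0 < α → α ≤ 1 →
        (∀ j ∈ S, Summable fun w => (others i w : ℝ) ^ α *
          ‖⟪F.e w, ψ j (b j 0) F.vacuum⟫_ℂ‖ ^ 2) →
        α * ((S.card : ℝ) - 1) ≤ n ∧ (α < 1 → α * ((S.card : ℝ) - 1) < n) := by
      intro hS α hα hα1 hs
      have hg := hdat k' r H G F E B τ b ψ hb hψ S i
      have h1 := Pool.FP.t_CRG n _ (Pool.FP.fst0 r S) (by rw [hcard]; exact hS) _ hg α hα hα1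
        fun a ha => ?_
      · rw [hcard] at h1
        exact h1
      · obtain ⟨j, hj, rfl⟩ := hmem S a ha
        have hinj : Function.Injective (fun w : List (Fin (n + 1)) => w.map (Equiv.swap 0 i)) :=
          List.map_injective_iff.2 (Equiv.swap 0 i).injective
        refine ((hs j hj).comp_injective hinj).congr fun w => ?_
        rw [hflat, fam, Ph_vac, V_coef, relabel_e, relabel_vacuum, hcnt i w]
        rfl
    refine ⟨fun hS α hα hα1 hs => ?_, fun hD => ?_⟩
    · rw [en]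
      exact key hS α hα hα1 hs
    · rcases Nat.lt_or_ge S.card 2 with hS | hS
      · omega
      have h1 := (key hS 1 one_pos le_rfl fun j hj => ?_).1
      · have h2 : ((S.card : ℕ) : ℝ) ≤ ((n + 1 : ℕ) : ℝ) := by push_cast; linarith
        exact_mod_cast h2
      · have hx : Ph F (ψ j (b j 0)) ∈ Pool.SI.Alg (n + 1) := Ph_mem F (hψ.maps _ _)
        have h3 : ∀ l ∈ Finset.univ.erase i, Summable fun w : List (Fin (n + 1)) =>
            ((w.countP fun a => decide (a = l) : ℕ) : ℝ) *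
              ‖⟪F.e w, ψ j (b j 0) F.vacuum⟫_ℂ‖ ^ 2 := by
          intro l hl
          have h4 := Pool.FR.HS_sum l _ hx (by
            rw [← Ph_D]
            exact Ph_hs F (hD j hj l (Finset.ne_of_mem_erase hl)))
          refine h4.congr fun w => ?_
          rw [Ph_vac, V_coef]
        have h5 := summable_sum h3
        refine h5.congr fun w => ?_
        rw [Real.rpow_one, ← Finset.sum_mul]
        congr 1
        rw [← Nat.cast_sum]
        congr 1
        rw [others]
        induction w with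
        | nil => simp
        | cons a w ih =>
          simp only [List.countP_cons, Finset.sum_add_distrib, ih]
          congr 1
          by_cases ha : a = i
          · subst ha
            simp
          · simp [ha]
  refine ⟨?_, ?_⟩
  · intro m hm
    obtain ⟨c₁, hc₁, h⟩ := Pool.FP.t_COG n m hm
    obtain ⟨c₂, hc₂, h'⟩ : ∃ c₂ : ℝ, 0 < c₂ ∧ (n + 1 ≤ m → ∀ (K : ℕ) (S : Finset (Fin K)),
        S.card = m → ∀ y : Fin K → (Pool.SI.Fk (n + 1) →L[ℂ] Pool.SI.Fk (n + 1)),
        Pool.FP.Dat n K S y → ∀ (d : ℕ) (ε : ℝ) (ξ : Fin K → Pool.SI.Fk (n + 1)),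
        1 ≤ d → 0 < ε → ε ≤ 1 → (∀ j ∈ S, ∀ w, d < Pool.FR.cnt w → ξ j w = 0) →
        (∀ j ∈ S, ‖y j (Pool.SI.vac (n + 1)) - ξ j‖ ≤ ε) →
        c₂ ≤ (d : ℝ) ^ n * ε ^ (2 * (m - (n + 1)))) := by
      by_cases hnm : n + 1 ≤ m
      · obtain ⟨c₂, hc₂, h'⟩ := Pool.FP.t_DRG n m hnm hm
        exact ⟨c₂, hc₂, fun _ => h'⟩
      · exact ⟨1, one_pos, fun h1 => absurd h1 hnm⟩
    refine ⟨min c₁ c₂, lt_min hc₁ hc₂, ?_⟩
    intro k' r H _ _ _ G _ _ _ F E B _ τ b ψ hD S hS i
    have hb := hD.approximable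
    have hψ := hD.free
    have hg := hdat k' r H G F E B τ b ψ hb hψ S i
    have hm2 := main k' r H G F E B τ b ψ hb hψ S i
    subst hS
    refine ⟨?_, ?_, hm2.1 hm, hm2.2⟩
    · intro θ hθ hθ1
      have h1 := h _ (Pool.FP.fst0 r S) (hcard r S) _ hg θ hθ hθ1
      rw [hsum] at h1
      rw [en]
      have h2 : min c₁ c₂ * θ ^ (2 * (n : ℝ) / ((S.card : ℝ) - 1)) ≤
          c₁ * θ ^ (2 * (n : ℝ) / ((S.card : ℝ) - 1)) :=
        mul_le_mul_of_nonneg_right (min_le_left _ _) (Real.rpow_nonneg hθ.le _)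
      refine (h2.trans h1).trans (le_of_eq (Finset.sum_congr rfl fun j _ => ?_))
      rw [hflat, fam, Ph_vac, ← V_modulus, relabel_modulus, relabel_vacuum]
    · intro hkm d ε ξ hd hε hε1 hx1 hx2
      have h1 := h' hkm _ (Pool.FP.fst0 r S) (hcard r S) _ hg d ε
        (fun a => V (F.relabel (Equiv.swap 0 i)) (ξ (finProdFinEquiv.symm a).1)) hd hε hε1
        (fun a ha w hw => by
          obtain ⟨j, hj, rfl⟩ := hmem S a ha
          rw [V_coef, relabel_e, Equiv.symm_apply_apply]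
          exact hx1 j hj _ (by rwa [← hcnt]))
        (fun a ha => by
          obtain ⟨j, hj, rfl⟩ := hmem S a ha
          rw [hflat, fam, Ph_vac, ← map_sub, LinearIsometryEquiv.norm_map, relabel_vacuum,
            Equiv.symm_apply_apply]
          exact hx2 j hj)
      exact (min_le_right _ _).trans h1
  · intro hk2 H _ _ _ F k' B _ τ A _ ω ρ Φ hA hinj hr
    exact free_of_iso hk2 F hA Φ hinj hr

end Pool.Agent.Results.MP_118406_an.FreeProductIsomorphisms
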