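import Mathlib
import Pool.Agent.Work.MP_118406_si.All

set_option autoImplicit false

/-!
# Smooth isomorphisms between the reduced free powers of `C([0,1])`

Authors: helper49 and the typists of `Work/MP_118406_si`.

The reduced free product of `k` copies of `(C([0,1]), Lebesgue)` is the C*-algebra generated
by a free semicircular family `s_1, .., s_k` (this is recalled in the problem file), that is, by the operators
`s_i = l_i + l_i*` on the full Fock space of `ℂ^k`: `FockSpace.algebra`.

The free difference quotient `∂_i` of Voiculescu is the derivation from the noncommutative polynomials in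
`s_1, .., s_k` to their tensor square with `∂_i s_j = δ_ij 1 ⊗ 1`.  If `a ⊗ b` is identified with the
rank one operator `a P b`, `P` the projection onto the vacuum vector, then `∂_i x` is the commutator of
the adjoint `r_i*` of the right creation operator with `x`.  This commutator `D i x` is defined for all `x` in the
C*-algebra; it is a Hilbert-Schmidt operator if and only if `x` is in the domain of the closure of
`∂_i` in `L²`, and trace class if and only if `∂_i x` is in the projective tensor square of `L²`.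

The theorem says that the number `k` of free factors is an invariant of smooth isomorphisms: a
*-isomorphism `φ` from the algebra for `k'` to the algebra for `k` such that the images of the generators have
trace class derivatives exists only if `k = k'`; nothing is assumed about the inverse of `φ`.  The same
holds if the derivatives of `φ` and of its inverse are Hilbert-Schmidt operators (finite free Dirichlet energy in
both directions).  In fact it suffices that for each pair `i, j` one of the conditions holds.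

Proof.  The algebra has only one tracial state for `k ≥ 2` (proved here by Powers averaging), so `φ` is implemented by a
unitary `U` which maps the vacuum vector to the vacuum vector.  For `x` in the algebra and a bounded operator `R`
with `R Ω = 0` one has the pairing formula `⟨Ω, R x Ω⟩ = ∑_i ⟪[R, s_i], D i x⟫`, where for an operator
`T = ∑ |a_n⟩⟨b_n|` of trace class and a bounded `S` the pairing is `∑ ⟨J a_n, S J b_n⟩`, and `∑ ⟨J T J e, S e⟩` for Hilbert-Schmidt
operators.  It is applied to `R = U r_j* U*`, `x = φ(s_j)`, and to `R = U* r_i* U`, `x = φ⁻¹(s_i)`: the left sides are `1`,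
and the sums over `j` and over `i` consist of the same terms.
-/

open scoped InnerProductSpace
open Set

noncomputable section

namespace Pool.Agent.Results.MP_118406_an.SmoothIsomorphisms

/-- The full Fock space of `ℂ^k`: a Hilbert space `H` with an orthonormal basis `e w` indexed by the words (lists) in
`k` letters, with the left and right creation operators `l i`, `r i` for the letters `i`. -/
structure FockSpace (k : ℕ) (H : Type) [NormedAddCommGroup H] [InnerProductSpace ℂ H] : Type where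
  /-- the basis -/
  e : HilbertBasis (List (Fin k)) ℂ H
  /-- the left creation operators -/
  l : Fin k → (H →L[ℂ] H)
  /-- the right creation operators -/
  r : Fin k → (H →L[ℂ] H)
  left : ∀ i w, l i (e w) = e (i :: w)
  right : ∀ i w, r i (e w) = e (w ++ [i])

variable {k : ℕ} {H : Type} [NormedAddCommGroup H] [InnerProductSpace ℂ H] [CompleteSpace H]

/-- The semicircular operators `s_i = l_i + l_i*`. -/
def FockSpace.s (F : FockSpace k H) (i : Fin k) : H →L[ℂ] H :=
  F.l i + ContinuousLinearMap.adjoint (F.l i)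

/-- The *-algebra of the noncommutative polynomials in the `s_i`. -/
def FockSpace.polynomials (F : FockSpace k H) : StarSubalgebra ℂ (H →L[ℂ] H) :=
  StarAlgebra.adjoin ℂ (range F.s)

/-- The C*-algebra generated by the semicircular operators. -/
def FockSpace.algebra (F : FockSpace k H) : StarSubalgebra ℂ (H →L[ℂ] H) :=
  F.polynomials.topologicalClosure

theorem FockSpace.mem (F : FockSpace k H) (i : Fin k) : F.s i ∈ F.algebra :=
  F.polynomials.le_topologicalClosure (StarAlgebra.subset_adjoin ℂ _ ⟨i, rfl⟩)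

/-- The generators of the C*-algebra. -/
def FockSpace.generator (F : FockSpace k H) (i : Fin k) : F.algebra := ⟨F.s i, F.mem i⟩

/-- The free difference quotient of `x` with respect to the generator `i`: the commutator of
`r_i*` and `x`. -/
def FockSpace.D (F : FockSpace k H) (i : Fin k) (x : H →L[ℂ] H) : H →L[ℂ] H :=
  ContinuousLinearMap.adjoint (F.r i) * x - x * ContinuousLinearMap.adjoint (F.r i)

/-- Trace class (nuclear) operators: `T x = ∑ ⟨b_n, x⟩ a_n` with `∑ ‖a_n‖ ‖b_n‖ < ∞`. -/
def TraceClass (T : H →L[ℂ] H) : Prop :=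
  ∃ a b : ℕ → H, Summable (fun n => ‖a n‖ * ‖b n‖) ∧
    ∀ x, HasSum (fun n => ⟪b n, x⟫_ℂ • a n) (T x)

/-- Hilbert-Schmidt operators. -/
def FockSpace.HilbertSchmidt (F : FockSpace k H) (T : H →L[ℂ] H) : Prop :=
  Summable (fun w : List (Fin k) => ‖T (F.e w)‖ ^ 2)

/-- A *-isomorphism from the *-algebra `A'` of operators on `H'` to the *-algebra `A` of operators on
`H` (only the values of `toFun` on `A'` and of `invFun` on `A` matter). -/
structure StarIsomorphism {H' : Type} [NormedAddCommGroup H'] [InnerProductSpace ℂ H']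
    [CompleteSpace H'] (A' : StarSubalgebra ℂ (H' →L[ℂ] H')) (A : StarSubalgebra ℂ (H →L[ℂ] H)) :
    Type where
  toFun : (H' →L[ℂ] H') → (H →L[ℂ] H)
  invFun : (H →L[ℂ] H) → (H' →L[ℂ] H')
  maps : ∀ x ∈ A', toFun x ∈ A ∧ invFun (toFun x) = x
  maps' : ∀ y ∈ A, invFun y ∈ A' ∧ toFun (invFun y) = y
  map_add : ∀ x ∈ A', ∀ y ∈ A', toFun (x + y) = toFun x + toFun y
  map_mul : ∀ x ∈ A', ∀ y ∈ A', toFun (x * y) = toFun x * toFun y
  map_smul : ∀ c : ℂ, ∀ x ∈ A', toFun (c • x) = c • toFun x
  map_star : ∀ x ∈ A', toFun (ContinuousLinearMap.adjoint x) = ContinuousLinearMap.adjoint (toFun x)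

/-! ### The proof -/

section Transport

/-- The unitary from `H` to the concrete Fock space. -/
def V (F : FockSpace k H) : H ≃ₗᵢ[ℂ] Pool.SI.Fk k := F.e.repr

theorem V_e (F : FockSpace k H) (w : List (Fin k)) : V F (F.e w) = Pool.SI.bs w := by
  classical
  have h := HilbertBasis.repr_self F.e w
  rw [V, h]
  rfl

theorem V_symm (F : FockSpace k H) (w : List (Fin k)) : (V F).symm (Pool.SI.bs w) = F.e w := by
  rw [← V_e F w, LinearIsometryEquiv.symm_apply_apply]

/-- Conjugation by `V`. -/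
def Ph (F : FockSpace k H) : (H →L[ℂ] H) ≃⋆ₐ[ℂ] (Pool.SI.Fk k →L[ℂ] Pool.SI.Fk k) :=
  (V F).conjStarAlgEquiv

theorem Ph_apply (F : FockSpace k H) (x : H →L[ℂ] H) (ξ : Pool.SI.Fk k) :
    Ph F x ξ = V F (x ((V F).symm ξ)) := rfl

theorem Ph_symm_apply (F : FockSpace k H) (x : Pool.SI.Fk k →L[ℂ] Pool.SI.Fk k) (ξ : H) :
    (Ph F).symm x ξ = (V F).symm (x (V F ξ)) := rfl

theorem Ph_adjoint (F : FockSpace k H) (x : H →L[ℂ] H) :
    Ph F (ContinuousLinearMap.adjoint x) = ContinuousLinearMap.adjoint (Ph F x) := by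
  rw [← ContinuousLinearMap.star_eq_adjoint, ← ContinuousLinearMap.star_eq_adjoint, map_star]

theorem Ph_l (F : FockSpace k H) (i : Fin k) : Ph F (F.l i) = Pool.SI.lc i := by
  refine (Pool.SI.t_BAS k).2.2.2.2.1 _ _ fun w => ?_
  rw [Ph_apply, V_symm, F.left, V_e, Pool.SI.lc_bs]

theorem Ph_r (F : FockSpace k H) (i : Fin k) : Ph F (F.r i) = Pool.SI.rc i := by
  refine (Pool.SI.t_BAS k).2.2.2.2.1 _ _ fun w => ?_
  rw [Ph_apply, V_symm, F.right, V_e, Pool.SI.rc_bs]

theorem Ph_s (F : FockSpace k H) (i : Fin k) : Ph F (F.s i) = Pool.SI.sc i := by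
  rw [FockSpace.s, map_add, Ph_adjoint, Ph_l]
  rfl

theorem Ph_D (F : FockSpace k H) (i : Fin k) (x : H →L[ℂ] H) :
    Ph F (F.D i x) = Pool.SI.dq i (Ph F x) := by
  rw [FockSpace.D, map_sub, map_mul, map_mul, Ph_adjoint, Ph_r]
  rfl

theorem Ph_cont (F : FockSpace k H) : Continuous (Ph F) := by
  have h : (Ph F : (H →L[ℂ] H) → _) = fun x => ((V F : H →L[ℂ] Pool.SI.Fk k)).comp
      (x.comp ((V F).symm : Pool.SI.Fk k →L[ℂ] H)) := rfl
  rw [h]
  exact continuous_const.clm_comp (continuous_id.clm_comp continuous_const)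

theorem Ph_symm_cont (F : FockSpace k H) : Continuous (Ph F).symm := by
  have h : ((Ph F).symm : _ → (H →L[ℂ] H)) = fun x => (((V F).symm : Pool.SI.Fk k →L[ℂ] H)).comp
      (x.comp (V F : H →L[ℂ] Pool.SI.Fk k)) := rfl
  rw [h]
  exact continuous_const.clm_comp (continuous_id.clm_comp continuous_const)

theorem Ph_poly (F : FockSpace k H) {x : H →L[ℂ] H} (hx : x ∈ F.polynomials) :
    Ph F x ∈ StarAlgebra.adjoin ℂ (Set.range (Pool.SI.sc : Fin k → (Pool.SI.Fk k →L[ℂ] Pool.SI.Fk k))) := by
  have h : F.polynomials ≤ (StarAlgebra.adjoin ℂ (Set.range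
      (Pool.SI.sc : Fin k → (Pool.SI.Fk k →L[ℂ] Pool.SI.Fk k)))).comap (Ph F).toStarAlgHom := by
    refine StarAlgebra.adjoin_le ?_
    rintro _ ⟨i, rfl⟩
    change Ph F (F.s i) ∈ StarAlgebra.adjoin ℂ (Set.range
      (Pool.SI.sc : Fin k → (Pool.SI.Fk k →L[ℂ] Pool.SI.Fk k)))
    rw [Ph_s]
    exact StarAlgebra.subset_adjoin ℂ _ ⟨i, rfl⟩
  exact h hx

theorem Ph_symm_poly (F : FockSpace k H) {x : Pool.SI.Fk k →L[ℂ] Pool.SI.Fk k}
    (hx : x ∈ StarAlgebra.adjoin ℂ
      (Set.range (Pool.SI.sc : Fin k → (Pool.SI.Fk k →L[ℂ] Pool.SI.Fk k)))) :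
    (Ph F).symm x ∈ F.polynomials := by
  have h : StarAlgebra.adjoin ℂ (Set.range
      (Pool.SI.sc : Fin k → (Pool.SI.Fk k →L[ℂ] Pool.SI.Fk k))) ≤
      F.polynomials.comap (Ph F).symm.toStarAlgHom := by
    refine StarAlgebra.adjoin_le ?_
    rintro _ ⟨i, rfl⟩
    change (Ph F).symm (Pool.SI.sc i) ∈ F.polynomials
    rw [← Ph_s F, StarAlgEquiv.symm_apply_apply]
    exact StarAlgebra.subset_adjoin ℂ _ ⟨i, rfl⟩
  exact h hx

theorem Ph_mem (F : FockSpace k H) {x : H →L[ℂ] H} (hx : x ∈ F.algebra) :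
    Ph F x ∈ Pool.SI.Alg k :=
  map_mem_closure (Ph_cont F) hx fun _ hy => Ph_poly F hy

theorem Ph_symm_mem (F : FockSpace k H) {x : Pool.SI.Fk k →L[ℂ] Pool.SI.Fk k}
    (hx : x ∈ Pool.SI.Alg k) : (Ph F).symm x ∈ F.algebra :=
  map_mem_closure (Ph_symm_cont F) hx fun _ hy => Ph_symm_poly F hy

theorem Ph_nuc (F : FockSpace k H) {T : H →L[ℂ] H} (hT : TraceClass T) :
    Pool.SI.Nuc (Ph F T) := by
  obtain ⟨a, b, h1, h2⟩ := hT
  refine ⟨fun n => V F (a n), fun n => V F (b n), ?_, fun ξ => ?_⟩
  · simpa using h1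
  · have h3 := (h2 ((V F).symm ξ)).mapL (V F : H →L[ℂ] Pool.SI.Fk k)
    rw [Ph_apply]
    refine h3.congr_fun fun n => ?_
    rw [LinearIsometryEquiv.inner_map_eq_flip]
    simp

theorem Ph_hs (F : FockSpace k H) {T : H →L[ℂ] H} (hT : F.HilbertSchmidt T) :
    Pool.SI.HS (Ph F T) := by
  refine hT.congr fun w => ?_
  rw [Ph_apply, V_symm, LinearIsometryEquiv.norm_map]

variable {k' : ℕ} {H' : Type} [NormedAddCommGroup H'] [InnerProductSpace ℂ H'] [CompleteSpace H']

/-- The isomorphism of the concrete algebras. -/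
def Is (F : FockSpace k H) (F' : FockSpace k' H') (φ : StarIsomorphism F'.algebra F.algebra) :
    Pool.SI.Alg k' ≃⋆ₐ[ℂ] Pool.SI.Alg k where
  toFun x := ⟨Ph F (φ.toFun ((Ph F').symm x)), Ph_mem F (φ.maps _ (Ph_symm_mem F' x.2)).1⟩
  invFun y := ⟨Ph F' (φ.invFun ((Ph F).symm y)), Ph_mem F' (φ.maps' _ (Ph_symm_mem F y.2)).1⟩
  left_inv x := by
    apply Subtype.ext
    change Ph F' (φ.invFun ((Ph F).symm (Ph F (φ.toFun ((Ph F').symm x))))) = x
    rw [StarAlgEquiv.symm_apply_apply, (φ.maps _ (Ph_symm_mem F' x.2)).2,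
      StarAlgEquiv.apply_symm_apply]
  right_inv y := by
    apply Subtype.ext
    change Ph F (φ.toFun ((Ph F').symm (Ph F' (φ.invFun ((Ph F).symm y))))) = y
    rw [StarAlgEquiv.symm_apply_apply, (φ.maps' _ (Ph_symm_mem F y.2)).2,
      StarAlgEquiv.apply_symm_apply]
  map_mul' x y := by
    apply Subtype.ext
    change Ph F (φ.toFun ((Ph F').symm (x * y))) =
      Ph F (φ.toFun ((Ph F').symm x)) * Ph F (φ.toFun ((Ph F').symm y))
    rw [map_mul, φ.map_mul _ (Ph_symm_mem F' x.2) _ (Ph_symm_mem F' y.2), map_mul]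
  map_add' x y := by
    apply Subtype.ext
    change Ph F (φ.toFun ((Ph F').symm (x + y))) =
      Ph F (φ.toFun ((Ph F').symm x)) + Ph F (φ.toFun ((Ph F').symm y))
    rw [map_add, φ.map_add _ (Ph_symm_mem F' x.2) _ (Ph_symm_mem F' y.2), map_add]
  map_smul' c x := by
    apply Subtype.ext
    change Ph F (φ.toFun ((Ph F').symm (c • (x : Pool.SI.Fk k' →L[ℂ] Pool.SI.Fk k')))) =
      c • Ph F (φ.toFun ((Ph F').symm x))
    rw [map_smul, φ.map_smul c _ (Ph_symm_mem F' x.2), map_smul]
  map_star' x := by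
    apply Subtype.ext
    change Ph F (φ.toFun ((Ph F').symm (star (x : Pool.SI.Fk k' →L[ℂ] Pool.SI.Fk k')))) =
      star (Ph F (φ.toFun ((Ph F').symm x)))
    rw [map_star, ContinuousLinearMap.star_eq_adjoint, φ.map_star _ (Ph_symm_mem F' x.2),
      Ph_adjoint, ContinuousLinearMap.star_eq_adjoint]

end Transport

/-- **Theorem.**  Let `k, k' ≥ 2`, let `F`, `F'` be the full Fock spaces of `ℂ^k`, `ℂ^k'`, and let `φ` be a
*-isomorphism from the C*-algebra generated by the semicircular operators of `F'` to the one of `F`, such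
that for all `i`, `j` (at least) one of the following holds: `φ(s_j)` is a noncommutative polynomial in
`s_1, .., s_k`; `D i (φ(s_j))` is trace class; `D j (φ⁻¹(s_i))` is trace class; both `D i (φ(s_j))` and
`D j (φ⁻¹(s_i))` are Hilbert-Schmidt operators.  Then `k = k'`. -/
theorem result (k k' : ℕ) (hk : 2 ≤ k) (hk' : 2 ≤ k')
    (H : Type) [NormedAddCommGroup H] [InnerProductSpace ℂ H] [CompleteSpace H]
    (H' : Type) [NormedAddCommGroup H'] [InnerProductSpace ℂ H'] [CompleteSpace H']
    (F : FockSpace k H) (F' : FockSpace k' H') (φ : StarIsomorphism F'.algebra F.algebra)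
    (hφ : ∀ (i : Fin k) (j : Fin k'),
      φ.toFun (F'.s j) ∈ F.polynomials ∨
      TraceClass (F.D i (φ.toFun (F'.s j))) ∨
      TraceClass (F'.D j (φ.invFun (F.s i))) ∨
      (F.HilbertSchmidt (F.D i (φ.toFun (F'.s j))) ∧
        F'.HilbertSchmidt (F'.D j (φ.invFun (F.s i))))) :
    k = k' := by
  refine Pool.SI.t_MNC k k' hk hk' (Is F F' φ) fun i j => ?_
  have e1 : ((Is F F' φ (Pool.SI.ge j) : Pool.SI.Alg k) : Pool.SI.Fk k →L[ℂ] Pool.SI.Fk k) =
      Ph F (φ.toFun (F'.s j)) := by
    change Ph F (φ.toFun ((Ph F').symm (Pool.SI.sc j))) = _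
    rw [← Ph_s F', StarAlgEquiv.symm_apply_apply]
  have e2 : (((Is F F' φ).symm (Pool.SI.ge i) : Pool.SI.Alg k') :
      Pool.SI.Fk k' →L[ℂ] Pool.SI.Fk k') = Ph F' (φ.invFun (F.s i)) := by
    change Ph F' (φ.invFun ((Ph F).symm (Pool.SI.sc i))) = _
    rw [← Ph_s F, StarAlgEquiv.symm_apply_apply]
  rw [e1, e2, ← Ph_D, ← Ph_D]
  rcases hφ i j with h | h | h | h
  · left
    rw [Ph_D]
    exact Pool.SI.t_POL k _ (Ph_poly F h) i
  · exact Or.inl (Ph_nuc F h)
  · exact Or.inr (Or.inl (Ph_nuc F' h))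
  · exact Or.inr (Or.inr ⟨Ph_hs F h.1, Ph_hs F' h.2⟩)

end Pool.Agent.Results.MP_118406_an.SmoothIsomorphisms
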