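import Mathlib
import Pool.Agent.Work.MP_118406_fr.All
import Pool.Agent.Work.MP_118406_fr.HS
import Pool.Agent.Work.MP_118406_da.CTR
import Pool.Agent.Work.MP_118406_da.B_SUB

set_option autoImplicit false

/-!
# Smooth subalgebras of the reduced free powers of `C([0,1])`

Authors: helper49, helper60 and the typists of `Work/MP_118406_fr`, `Work/MP_118406_si`.

The reduced free product of `k` copies of `(C([0,1]), Lebesgue)` is the C*-algebra generated by a free semicircular
family `s_1, .., s_k` (this is recalled in the problem file), that is, by the operators `s_i = l_i + l_i*` on the full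
Fock space of `ℂ^k`.  The elements `x` whose free difference quotients `D_i x = r_i* x - x r_i*` are Hilbert-Schmidt
operators form a dense *-subalgebra, closed under inverses: the domain of the free difference quotient.  For different `k`
these *-algebras are not isomorphic.  No continuity is assumed: by spectral permanence every unital *-homomorphism on an
inverse closed *-subalgebra is contractive (`Work/MP_118406_da/CTR.lean`), so it extends to the C*-algebra, where the
lower bound of `Work/MP_118406_fr` for the irregularity of all homomorphisms with weakly dense range applies.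
-/

open scoped InnerProductSpace
open Set

noncomputable section

namespace Pool.Agent.Results.MP_118406_an.SmoothSubalgebras

/-- The full Fock space of `ℂ^k`: a Hilbert space `H` with an orthonormal basis `e w` indexed by the words (lists) in
`k` letters, with the left and right creation operators `l i`, `r i` for the letters `i`. -/
structure FockSpace (k : ℕ) (H : Type) [NormedAddCommGroup H] [InnerProductSpace ℂ H] : Type where
  /-- the basis -/
  e : HilbertBasis (List (Fin k)) ℂ H
  /-- the left creation operators -/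
  l : Fin k → (H →L[ℂ] H)
  /-- the right creation operators -/
  r : Fin k → (H →L[ℂ] H)
  left : ∀ i w, l i (e w) = e (i :: w)
  right : ∀ i w, r i (e w) = e (w ++ [i])

variable {k : ℕ} {H : Type} [NormedAddCommGroup H] [InnerProductSpace ℂ H] [CompleteSpace H]

/-- The vacuum vector. -/
def FockSpace.vacuum (F : FockSpace k H) : H := F.e []

/-- The semicircular operators `s_i = l_i + l_i*`. -/
def FockSpace.s (F : FockSpace k H) (i : Fin k) : H →L[ℂ] H :=
  F.l i + ContinuousLinearMap.adjoint (F.l i)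

/-- The *-algebra of the noncommutative polynomials in the `s_i`. -/
def FockSpace.polynomials (F : FockSpace k H) : StarSubalgebra ℂ (H →L[ℂ] H) :=
  StarAlgebra.adjoin ℂ (range F.s)

/-- The C*-algebra generated by the semicircular operators. -/
def FockSpace.algebra (F : FockSpace k H) : StarSubalgebra ℂ (H →L[ℂ] H) :=
  F.polynomials.topologicalClosure

/-- The free difference quotient of `x` with respect to the generator `i`: the commutator of
`r_i*` and `x`. -/
def FockSpace.D (F : FockSpace k H) (i : Fin k) (x : H →L[ℂ] H) : H →L[ℂ] H :=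
  ContinuousLinearMap.adjoint (F.r i) * x - x * ContinuousLinearMap.adjoint (F.r i)

/-- Hilbert-Schmidt operators. -/
def FockSpace.HilbertSchmidt (F : FockSpace k H) (T : H →L[ℂ] H) : Prop :=
  Summable (fun w : List (Fin k) => ‖T (F.e w)‖ ^ 2)

/-- The number of letters of the word `w` different from `i`. -/
def others (i : Fin k) (w : List (Fin k)) : ℕ := w.countP fun a => decide (a ≠ i)

/-- A unital *-homomorphism from the *-algebra `A'` of operators on `H'` to the *-algebra `A` of operators on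
`H` (only the values of `toFun` on `A'` matter). -/
structure StarHomomorphism {H' : Type} [NormedAddCommGroup H'] [InnerProductSpace ℂ H']
    [CompleteSpace H'] (A' : StarSubalgebra ℂ (H' →L[ℂ] H')) (A : StarSubalgebra ℂ (H →L[ℂ] H)) :
    Type where
  toFun : (H' →L[ℂ] H') → (H →L[ℂ] H)
  maps : ∀ x ∈ A', toFun x ∈ A
  map_one : toFun 1 = 1
  map_add : ∀ x ∈ A', ∀ y ∈ A', toFun (x + y) = toFun x + toFun y
  map_mul : ∀ x ∈ A', ∀ y ∈ A', toFun (x * y) = toFun x * toFun y
  map_smul : ∀ c : ℂ, ∀ x ∈ A', toFun (c • x) = c • toFun x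
  map_star : ∀ x ∈ A', toFun (ContinuousLinearMap.adjoint x) = ContinuousLinearMap.adjoint (toFun x)

variable {k' : ℕ} {H' : Type} [NormedAddCommGroup H'] [InnerProductSpace ℂ H'] [CompleteSpace H']

/-- The range of the homomorphism is weakly dense: the semicircular operators are limits of bounded sequences of
elements of the range with respect to the norm `‖y‖₂ = ‖y Ω‖` (by Kaplansky's density theorem this is implied by
weak density; it holds for a homomorphism onto a set which contains the `s_i`, see `dense_of_surjective`). -/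
def FockSpace.DenseRange (F : FockSpace k H) {A' : StarSubalgebra ℂ (H' →L[ℂ] H')}
    {A : StarSubalgebra ℂ (H →L[ℂ] H)} (φ : StarHomomorphism A' A) : Prop :=
  ∃ M : ℝ, ∀ (i : Fin k) (η : ℝ), 0 < η → ∃ x ∈ A',
    ‖φ.toFun x‖ ≤ M ∧ ‖(F.s i - φ.toFun x) F.vacuum‖ ≤ η

/-- Closed under inverses (of bounded operators). -/
def InverseClosed (B : StarSubalgebra ℂ (H →L[ℂ] H)) : Prop :=
  ∀ x ∈ B, ∀ y : H →L[ℂ] H, x * y = 1 → y * x = 1 → y ∈ B

theorem FockSpace.mem (F : FockSpace k H) (i : Fin k) : F.s i ∈ F.algebra :=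
  F.polynomials.le_topologicalClosure (StarAlgebra.subset_adjoin ℂ _ ⟨i, rfl⟩)

/-- Homomorphisms onto a set which contains the generators have a weakly dense range. -/
theorem dense_of_surjective (F : FockSpace k H) {A' : StarSubalgebra ℂ (H' →L[ℂ] H')}
    {A : StarSubalgebra ℂ (H →L[ℂ] H)} (φ : StarHomomorphism A' A)
    (h : ∀ i, ∃ x ∈ A', φ.toFun x = F.s i) : F.DenseRange φ := by
  refine ⟨∑ i, ‖F.s i‖, fun i η hη => ?_⟩
  obtain ⟨x, hx, hxy⟩ := h i
  refine ⟨x, hx, ?_, ?_⟩
  · rw [hxy]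
    exact Finset.single_le_sum (f := fun i => ‖F.s i‖) (fun i _ => norm_nonneg _) (Finset.mem_univ i)
  · rw [hxy, sub_self]
    simpa using hη.le

/-! ### The proof -/

section Transport

/-- The unitary from `H` to the concrete Fock space. -/
def V (F : FockSpace k H) : H ≃ₗᵢ[ℂ] Pool.SI.Fk k := F.e.repr

theorem V_e (F : FockSpace k H) (w : List (Fin k)) : V F (F.e w) = Pool.SI.bs w := by
  classical
  have h := HilbertBasis.repr_self F.e w
  rw [V, h]
  rfl

theorem V_symm (F : FockSpace k H) (w : List (Fin k)) : (V F).symm (Pool.SI.bs w) = F.e w := by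
  rw [← V_e F w, LinearIsometryEquiv.symm_apply_apply]

/-- Conjugation by `V`. -/
def Ph (F : FockSpace k H) : (H →L[ℂ] H) ≃⋆ₐ[ℂ] (Pool.SI.Fk k →L[ℂ] Pool.SI.Fk k) :=
  (V F).conjStarAlgEquiv

theorem Ph_apply (F : FockSpace k H) (x : H →L[ℂ] H) (ξ : Pool.SI.Fk k) :
    Ph F x ξ = V F (x ((V F).symm ξ)) := rfl

theorem Ph_adjoint (F : FockSpace k H) (x : H →L[ℂ] H) :
    Ph F (ContinuousLinearMap.adjoint x) = ContinuousLinearMap.adjoint (Ph F x) := by
  rw [← ContinuousLinearMap.star_eq_adjoint, ← ContinuousLinearMap.star_eq_adjoint, map_star]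

theorem Ph_l (F : FockSpace k H) (i : Fin k) : Ph F (F.l i) = Pool.SI.lc i := by
  refine (Pool.SI.t_BAS k).2.2.2.2.1 _ _ fun w => ?_
  rw [Ph_apply, V_symm, F.left, V_e, Pool.SI.lc_bs]

theorem Ph_r (F : FockSpace k H) (i : Fin k) : Ph F (F.r i) = Pool.SI.rc i := by
  refine (Pool.SI.t_BAS k).2.2.2.2.1 _ _ fun w => ?_
  rw [Ph_apply, V_symm, F.right, V_e, Pool.SI.rc_bs]

theorem Ph_s (F : FockSpace k H) (i : Fin k) : Ph F (F.s i) = Pool.SI.sc i := by
  rw [FockSpace.s, map_add, Ph_adjoint, Ph_l]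
  rfl

theorem Ph_D (F : FockSpace k H) (i : Fin k) (x : H →L[ℂ] H) :
    Ph F (F.D i x) = Pool.SI.dq i (Ph F x) := by
  rw [FockSpace.D, map_sub, map_mul, map_mul, Ph_adjoint, Ph_r]
  rfl

theorem Ph_cont (F : FockSpace k H) : Continuous (Ph F) := by
  have h : (Ph F : (H →L[ℂ] H) → _) = fun x => ((V F : H →L[ℂ] Pool.SI.Fk k)).comp
      (x.comp ((V F).symm : Pool.SI.Fk k →L[ℂ] H)) := rfl
  rw [h]
  exact continuous_const.clm_comp (continuous_id.clm_comp continuous_const)

theorem Ph_symm_cont (F : FockSpace k H) : Continuous (Ph F).symm := by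
  have h : ((Ph F).symm : _ → (H →L[ℂ] H)) = fun x => (((V F).symm : Pool.SI.Fk k →L[ℂ] H)).comp
      (x.comp (V F : H →L[ℂ] Pool.SI.Fk k)) := rfl
  rw [h]
  exact continuous_const.clm_comp (continuous_id.clm_comp continuous_const)

theorem Ph_poly (F : FockSpace k H) {x : H →L[ℂ] H} (hx : x ∈ F.polynomials) :
    Ph F x ∈ StarAlgebra.adjoin ℂ (Set.range (Pool.SI.sc : Fin k → (Pool.SI.Fk k →L[ℂ] Pool.SI.Fk k))) := by
  have h : F.polynomials ≤ (StarAlgebra.adjoin ℂ (Set.range
      (Pool.SI.sc : Fin k → (Pool.SI.Fk k →L[ℂ] Pool.SI.Fk k)))).comap (Ph F).toStarAlgHom := by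
    refine StarAlgebra.adjoin_le ?_
    rintro _ ⟨i, rfl⟩
    change Ph F (F.s i) ∈ StarAlgebra.adjoin ℂ (Set.range
      (Pool.SI.sc : Fin k → (Pool.SI.Fk k →L[ℂ] Pool.SI.Fk k)))
    rw [Ph_s]
    exact StarAlgebra.subset_adjoin ℂ _ ⟨i, rfl⟩
  exact h hx

theorem Ph_symm_poly (F : FockSpace k H) {x : Pool.SI.Fk k →L[ℂ] Pool.SI.Fk k}
    (hx : x ∈ StarAlgebra.adjoin ℂ
      (Set.range (Pool.SI.sc : Fin k → (Pool.SI.Fk k →L[ℂ] Pool.SI.Fk k)))) :
    (Ph F).symm x ∈ F.polynomials := by
  have h : StarAlgebra.adjoin ℂ (Set.range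
      (Pool.SI.sc : Fin k → (Pool.SI.Fk k →L[ℂ] Pool.SI.Fk k))) ≤
      F.polynomials.comap (Ph F).symm.toStarAlgHom := by
    refine StarAlgebra.adjoin_le ?_
    rintro _ ⟨i, rfl⟩
    change (Ph F).symm (Pool.SI.sc i) ∈ F.polynomials
    rw [← Ph_s F, StarAlgEquiv.symm_apply_apply]
    exact StarAlgebra.subset_adjoin ℂ _ ⟨i, rfl⟩
  exact h hx

theorem Ph_mem (F : FockSpace k H) {x : H →L[ℂ] H} (hx : x ∈ F.algebra) :
    Ph F x ∈ Pool.SI.Alg k :=
  map_mem_closure (Ph_cont F) hx fun _ hy => Ph_poly F hy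

theorem Ph_symm_mem (F : FockSpace k H) {x : Pool.SI.Fk k →L[ℂ] Pool.SI.Fk k}
    (hx : x ∈ Pool.SI.Alg k) : (Ph F).symm x ∈ F.algebra :=
  map_mem_closure (Ph_symm_cont F) hx fun _ hy => Ph_symm_poly F hy

theorem Ph_hs (F : FockSpace k H) {T : H →L[ℂ] H} (hT : F.HilbertSchmidt T) :
    Pool.SI.HS (Ph F T) := by
  refine hT.congr fun w => ?_
  rw [Ph_apply, V_symm, LinearIsometryEquiv.norm_map]

theorem V_coef (F : FockSpace k H) (ξ : H) (w : List (Fin k)) : (V F ξ) w = ⟪F.e w, ξ⟫_ℂ :=
  F.e.repr_apply_apply ξ w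

theorem Ph_vac (F : FockSpace k H) (x : H →L[ℂ] H) :
    Ph F x (Pool.SI.vac k) = V F (x F.vacuum) := by
  rw [Ph_apply, Pool.SI.vac, V_symm]
  rfl

theorem Ph_norm (F : FockSpace k H) (x : H →L[ℂ] H) : ‖Ph F x‖ ≤ ‖x‖ := by
  refine ContinuousLinearMap.opNorm_le_bound _ (norm_nonneg _) fun ξ => ?_
  rw [Ph_apply, LinearIsometryEquiv.norm_map]
  refine (x.le_opNorm _).trans ?_
  rw [LinearIsometryEquiv.norm_map]

/-- The homomorphism of the concrete algebras. -/
def Hm (F : FockSpace k H) (F' : FockSpace k' H') (φ : StarHomomorphism F'.algebra F.algebra) :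
    Pool.SI.Alg k' →⋆ₐ[ℂ] Pool.SI.Alg k where
  toFun x := ⟨Ph F (φ.toFun ((Ph F').symm x)), Ph_mem F (φ.maps _ (Ph_symm_mem F' x.2))⟩
  map_one' := by
    apply Subtype.ext
    change Ph F (φ.toFun ((Ph F').symm 1)) = 1
    rw [_root_.map_one, φ.map_one, _root_.map_one]
  map_mul' x y := by
    apply Subtype.ext
    change Ph F (φ.toFun ((Ph F').symm (x * y))) =
      Ph F (φ.toFun ((Ph F').symm x)) * Ph F (φ.toFun ((Ph F').symm y))
    rw [map_mul, φ.map_mul _ (Ph_symm_mem F' x.2) _ (Ph_symm_mem F' y.2), map_mul]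
  map_zero' := by
    apply Subtype.ext
    change Ph F (φ.toFun ((Ph F').symm 0)) = 0
    have h := φ.map_smul 0 0 F'.algebra.zero_mem
    rw [zero_smul, zero_smul] at h
    rw [map_zero, h, map_zero]
  map_add' x y := by
    apply Subtype.ext
    change Ph F (φ.toFun ((Ph F').symm (x + y))) =
      Ph F (φ.toFun ((Ph F').symm x)) + Ph F (φ.toFun ((Ph F').symm y))
    rw [map_add, φ.map_add _ (Ph_symm_mem F' x.2) _ (Ph_symm_mem F' y.2), map_add]
  commutes' c := by
    apply Subtype.ext
    change Ph F (φ.toFun ((Ph F').symm (algebraMap ℂ (Pool.SI.Fk k' →L[ℂ] Pool.SI.Fk k') c))) =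
      algebraMap ℂ (Pool.SI.Fk k →L[ℂ] Pool.SI.Fk k) c
    rw [Algebra.algebraMap_eq_smul_one, Algebra.algebraMap_eq_smul_one, map_smul,
      _root_.map_one, φ.map_smul c 1 F'.algebra.one_mem, φ.map_one, map_smul, _root_.map_one]
  map_star' x := by
    apply Subtype.ext
    change Ph F (φ.toFun ((Ph F').symm (star (x : Pool.SI.Fk k' →L[ℂ] Pool.SI.Fk k')))) =
      star (Ph F (φ.toFun ((Ph F').symm x)))
    rw [map_star, ContinuousLinearMap.star_eq_adjoint, φ.map_star _ (Ph_symm_mem F' x.2),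
      Ph_adjoint, ContinuousLinearMap.star_eq_adjoint]

theorem Hm_ge (F : FockSpace k H) (F' : FockSpace k' H') (φ : StarHomomorphism F'.algebra F.algebra)
    (j : Fin k') : ((Hm F F' φ (Pool.SI.ge j) : Pool.SI.Alg k) : Pool.SI.Fk k →L[ℂ] Pool.SI.Fk k) =
      Ph F (φ.toFun (F'.s j)) := by
  change Ph F (φ.toFun ((Ph F').symm (Pool.SI.sc j))) = _
  rw [← Ph_s F', StarAlgEquiv.symm_apply_apply]

theorem Hm_gen {n : ℕ} (hk' : 2 ≤ k') (F : FockSpace (n + 1) H) (F' : FockSpace k' H')
    (φ : StarHomomorphism F'.algebra F.algebra) (h : F.DenseRange φ) :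
    Pool.FR.Gen n k' fun j => Ph F (φ.toFun (F'.s j)) := by
  have h1 := Pool.FR.t_GNF n k' hk' (Hm F F' φ) ?_
  · simpa only [Hm_ge] using h1
  · obtain ⟨M, hM⟩ := h
    refine ⟨M, fun i η hη => ?_⟩
    obtain ⟨x, hx, hx1, hx2⟩ := hM i η hη
    refine ⟨⟨Ph F' x, Ph_mem F' hx⟩, ?_, ?_⟩
    · have e : ((Hm F F' φ ⟨Ph F' x, Ph_mem F' hx⟩ : Pool.SI.Alg (n + 1)) :
          Pool.SI.Fk (n + 1) →L[ℂ] Pool.SI.Fk (n + 1)) = Ph F (φ.toFun x) := by
        change Ph F (φ.toFun ((Ph F').symm (Ph F' x))) = _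
        rw [StarAlgEquiv.symm_apply_apply]
      refine le_trans ?_ ((Ph_norm F _).trans hx1)
      rw [← e]
      rfl
    · have e : ((Hm F F' φ ⟨Ph F' x, Ph_mem F' hx⟩ : Pool.SI.Alg (n + 1)) :
          Pool.SI.Fk (n + 1) →L[ℂ] Pool.SI.Fk (n + 1)) = Ph F (φ.toFun x) := by
        change Ph F (φ.toFun ((Ph F').symm (Ph F' x))) = _
        rw [StarAlgEquiv.symm_apply_apply]
      rw [e, ← Ph_s F i, ← map_sub, Ph_vac, LinearIsometryEquiv.norm_map]
      exact hx2


theorem Ph_hs_iff (F : FockSpace k H) (T : H →L[ℂ] H) :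
    Pool.SI.HS (Ph F T) ↔ F.HilbertSchmidt T := by
  have e : ∀ w, ‖Ph F T (Pool.SI.bs w)‖ ^ 2 = ‖T (F.e w)‖ ^ 2 := fun w => by
    rw [Ph_apply, V_symm, LinearIsometryEquiv.norm_map]
  exact ⟨fun h => h.congr fun w => e w, fun h => h.congr fun w => (e w).symm⟩

theorem Ph_mem_iff (F : FockSpace k H) (x : H →L[ℂ] H) :
    Ph F x ∈ Pool.SI.Alg k ↔ x ∈ F.algebra := by
  refine ⟨fun h => ?_, Ph_mem F⟩
  have := Ph_symm_mem F h
  rwa [StarAlgEquiv.symm_apply_apply] at this

theorem Ph_dir (F : FockSpace k H) (x : H →L[ℂ] H) :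
    Ph F x ∈ Pool.DA.DirA k ↔ x ∈ F.algebra ∧ ∀ i, F.HilbertSchmidt (F.D i x) := by
  change (Ph F x ∈ Pool.SI.Alg k ∧ ∀ i, Pool.SI.HS (Pool.SI.dq i (Ph F x))) ↔ _
  rw [Ph_mem_iff]
  simp only [← Ph_D, Ph_hs_iff]

/-- The *-algebra of the elements of the C*-algebra whose free difference quotients are Hilbert-Schmidt operators. -/
def FockSpace.smooth (F : FockSpace k H) : StarSubalgebra ℂ (H →L[ℂ] H) where
  carrier := {x | x ∈ F.algebra ∧ ∀ i, F.HilbertSchmidt (F.D i x)}
  mul_mem' {x y} hx hy := by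
    have h := mul_mem ((Ph_dir F x).2 hx) ((Ph_dir F y).2 hy)
    rw [← map_mul] at h
    exact (Ph_dir F _).1 h
  add_mem' {x y} hx hy := by
    have h := add_mem ((Ph_dir F x).2 hx) ((Ph_dir F y).2 hy)
    rw [← map_add] at h
    exact (Ph_dir F _).1 h
  algebraMap_mem' c := by
    refine (Ph_dir F _).1 ?_
    rw [AlgHomClass.commutes]
    exact (Pool.DA.DirA k).algebraMap_mem c
  star_mem' {x} hx := by
    have h := star_mem ((Ph_dir F x).2 hx)
    rw [← map_star] at h
    exact (Ph_dir F _).1 h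

theorem smooth_s (F : FockSpace k H) (i : Fin k) : F.s i ∈ F.smooth := by
  refine (Ph_dir F _).1 ?_
  rw [Ph_s]
  exact ⟨Pool.SI.sc_mem i, fun l => Pool.DA.SUB_nuc l i⟩

theorem smooth_poly (F : FockSpace k H) : F.polynomials ≤ F.smooth := by
  refine StarAlgebra.adjoin_le ?_
  rintro _ ⟨i, rfl⟩
  exact smooth_s F i

theorem smooth_inv (F : FockSpace k H) : InverseClosed F.smooth := by
  intro x hx y h1 h2
  refine (Ph_dir F _).1 (Pool.DA.SUB_inv k (Ph F x) ((Ph_dir F _).2 hx) (Ph F y) ?_ ?_)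
  · rw [← map_mul, h1, _root_.map_one]
  · rw [← map_mul, h2, _root_.map_one]

end Transport

section Relabel

/-- Renaming the letters. -/
def FockSpace.relabel (F : FockSpace k H) (σ : Equiv.Perm (Fin k)) : FockSpace k H where
  e := HilbertBasis.mk (v := fun w : List (Fin k) => F.e (w.map σ))
    (F.e.orthonormal.comp _ (List.map_injective_iff.2 σ.injective)) (by
      have h : Set.range (fun w : List (Fin k) => F.e (w.map σ)) = Set.range F.e :=
        (List.map_surjective_iff.2 σ.surjective).range_comp F.e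
      rw [h, F.e.dense_span])
  l i := F.l (σ i)
  r i := F.r (σ i)
  left i w := by
    rw [HilbertBasis.coe_mk]
    exact F.left (σ i) (w.map σ)
  right i w := by
    rw [HilbertBasis.coe_mk]
    simp only [List.map_append, List.map_cons, List.map_nil]
    exact F.right (σ i) (w.map σ)

theorem relabel_e (F : FockSpace k H) (σ : Equiv.Perm (Fin k)) (w : List (Fin k)) :
    (F.relabel σ).e w = F.e (w.map σ) := by
  rw [FockSpace.relabel, HilbertBasis.coe_mk]

theorem relabel_vacuum (F : FockSpace k H) (σ : Equiv.Perm (Fin k)) :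
    (F.relabel σ).vacuum = F.vacuum := by
  rw [FockSpace.vacuum, relabel_e]
  rfl

theorem relabel_s (F : FockSpace k H) (σ : Equiv.Perm (Fin k)) (i : Fin k) :
    (F.relabel σ).s i = F.s (σ i) := rfl

theorem relabel_algebra (F : FockSpace k H) (σ : Equiv.Perm (Fin k)) :
    F.algebra = (F.relabel σ).algebra := by
  have h : Set.range (F.relabel σ).s = Set.range F.s := by
    have : (F.relabel σ).s = F.s ∘ σ := funext fun i => relabel_s F σ i
    rw [this]
    exact σ.surjective.range_comp _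
  rw [FockSpace.algebra, FockSpace.algebra, FockSpace.polynomials, FockSpace.polynomials, h]

theorem relabel_hs (F : FockSpace k H) (σ : Equiv.Perm (Fin k)) (T : H →L[ℂ] H)
    (h : F.HilbertSchmidt T) : (F.relabel σ).HilbertSchmidt T := by
  have := h.comp_injective (List.map_injective_iff.2 σ.injective)
  refine this.congr fun w => ?_
  rw [relabel_e]
  rfl

/-- The same homomorphism with values in an equal algebra. -/
def StarHomomorphism.cast {A' : StarSubalgebra ℂ (H' →L[ℂ] H')} {A B : StarSubalgebra ℂ (H →L[ℂ] H)}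
    (φ : StarHomomorphism A' A) (h : A = B) : StarHomomorphism A' B where
  toFun := φ.toFun
  maps x hx := h ▸ φ.maps x hx
  map_one := φ.map_one
  map_add := φ.map_add
  map_mul := φ.map_mul
  map_smul := φ.map_smul
  map_star := φ.map_star

theorem relabel_dense (F : FockSpace k H) (F' : FockSpace k' H')
    (φ : StarHomomorphism F'.algebra F.algebra) (h : F.DenseRange φ) (σ : Equiv.Perm (Fin k)) :
    (F.relabel σ).DenseRange (φ.cast (relabel_algebra F σ)) := by
  obtain ⟨M, hM⟩ := h
  refine ⟨M, fun i η hη => ?_⟩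
  obtain ⟨x, hx, hx1, hx2⟩ := hM (σ i) η hη
  refine ⟨x, hx, hx1, ?_⟩
  rw [relabel_vacuum]
  exact hx2

end Relabel

/-- One-sided irregularity of the homomorphisms of the C*-algebras. -/
theorem irregular (hk : 1 ≤ k) (F : FockSpace k H) (F' : FockSpace k' H')
    (φ : StarHomomorphism F'.algebra F.algebra) (hφ : F.DenseRange φ) (S : Finset (Fin k')) (i : Fin k)
    (hD : ∀ j ∈ S, ∀ l, l ≠ i → F.HilbertSchmidt (F.D l (φ.toFun (F'.s j)))) : S.card ≤ k := by
  obtain ⟨n, rfl⟩ : ∃ n, k = n + 1 := ⟨k - 1, by omega⟩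
  rcases Nat.lt_or_ge S.card 2 with hS | hS
  · omega
  have hk' : 2 ≤ k' := hS.trans (by simpa using Finset.card_le_univ S)
  have hg := Hm_gen hk' _ F' _ (relabel_dense F F' φ hφ (Equiv.swap 0 i))
  have hcnt : ∀ (w : List (Fin (n + 1))),
      Pool.FR.cnt w = others i (w.map (Equiv.swap 0 i)) := by
    intro w
    rw [others, Pool.FR.cnt, List.countP_map]
    refine List.countP_congr fun a _ => ?_
    have : a = 0 ↔ Equiv.swap 0 i a = i := by
      constructor
      · rintro rfl
        exact Equiv.swap_apply_left _ _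
      · intro h
        have := congrArg (Equiv.swap 0 i) h
        simpa using this
    simp only [Function.comp, decide_eq_true_eq, ne_eq, this]
  have hs : ∀ j ∈ S, Summable fun w => (others i w : ℝ) ^ (1 : ℝ) *
      ‖⟪F.e w, φ.toFun (F'.s j) F.vacuum⟫_ℂ‖ ^ 2 := by
    intro j hj
    have hx : Ph F (φ.toFun (F'.s j)) ∈ Pool.SI.Alg (n + 1) := Ph_mem F (φ.maps _ (F'.mem j))
    have h3 : ∀ l ∈ Finset.univ.erase i, Summable fun w : List (Fin (n + 1)) =>
        ((w.countP fun a => decide (a = l) : ℕ) : ℝ) *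
          ‖⟪F.e w, φ.toFun (F'.s j) F.vacuum⟫_ℂ‖ ^ 2 := by
      intro l hl
      have h4 := Pool.FR.HS_sum l _ hx (by
        rw [← Ph_D]
        exact Ph_hs F (hD j hj l (Finset.ne_of_mem_erase hl)))
      refine h4.congr fun w => ?_
      rw [Ph_vac, V_coef]
    have h5 := summable_sum h3
    refine h5.congr fun w => ?_
    rw [Real.rpow_one, ← Finset.sum_mul]
    congr 1
    rw [← Nat.cast_sum]
    congr 1
    rw [others]
    induction w with
    | nil => simp
    | cons a w ih =>
      simp only [List.countP_cons, Finset.sum_add_distrib, ih]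
      congr 1
      by_cases ha : a = i
      · subst ha
        simp
      · simp [ha]
  have h1 := (Pool.FR.t_CRS n k' S hS _ hg 1 one_pos le_rfl fun j hj => ?_).1
  · have h2 : ((S.card : ℕ) : ℝ) ≤ ((n + 1 : ℕ) : ℝ) := by push_cast; linarith
    exact_mod_cast h2
  · have hinj : Function.Injective (fun w : List (Fin (n + 1)) => w.map (Equiv.swap 0 i)) :=
      List.map_injective_iff.2 (Equiv.swap 0 i).injective
    refine ((hs j hj).comp_injective hinj).congr fun w => ?_
    rw [Ph_vac, V_coef, relabel_e, relabel_vacuum, hcnt]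
    rfl

/-- The homomorphism as a map on a subalgebra of a C*-algebra. -/
theorem homOn {A' : StarSubalgebra ℂ (H' →L[ℂ] H')} {A : StarSubalgebra ℂ (H →L[ℂ] H)}
    (φ : StarHomomorphism A' A) : Pool.DA.HomOn A' φ.toFun :=
  ⟨φ.map_one, φ.map_add, φ.map_mul, φ.map_smul, φ.map_star⟩

theorem main (hk : 1 ≤ k) (F : FockSpace k H) (F' : FockSpace k' H')
    (B : StarSubalgebra ℂ (H' →L[ℂ] H')) (hB : B ≤ F'.algebra) (hs : ∀ j, F'.s j ∈ B)
    (hinv : InverseClosed B) (φ : StarHomomorphism B F.algebra) (hφ : F.DenseRange φ)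
    (S : Finset (Fin k')) (i : Fin k)
    (hD : ∀ j ∈ S, ∀ l, l ≠ i → F.HilbertSchmidt (F.D l (φ.toFun (F'.s j)))) : S.card ≤ k := by
  obtain ⟨f, hf1, hf2, hf3⟩ := Pool.DA.ext (homOn φ) hinv
  have hcl : ∀ x, x ∈ F'.algebra → x ∈ B.topologicalClosure := by
    intro x hx
    have h1 : F'.polynomials ≤ B := by
      refine StarAlgebra.adjoin_le ?_
      rintro _ ⟨j, rfl⟩
      exact hs j
    exact closure_mono h1 hx
  have hA : IsClosed ((F.algebra : StarSubalgebra ℂ (H →L[ℂ] H)) : Set (H →L[ℂ] H)) :=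
    StarSubalgebra.isClosed_topologicalClosure _
  let g : StarHomomorphism F'.algebra F.algebra :=
    { toFun := f
      maps := fun x hx => by
        have h1 := hf3 (F.algebra : Set (H →L[ℂ] H)) (fun y hy => φ.maps y hy) x (hcl x hx)
        rw [hA.closure_eq] at h1
        exact h1
      map_one := hf1.one
      map_add := fun x hx y hy => hf1.add x (hcl x hx) y (hcl y hy)
      map_mul := fun x hx y hy => hf1.mul x (hcl x hx) y (hcl y hy)
      map_smul := fun c x hx => hf1.smul c x (hcl x hx)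
      map_star := fun x hx => hf1.star x (hcl x hx) }
  refine irregular hk F F' g ?_ S i ?_
  · obtain ⟨M, hM⟩ := hφ
    refine ⟨M, fun i η hη => ?_⟩
    obtain ⟨x, hx, h1, h2⟩ := hM i η hη
    refine ⟨x, hB hx, ?_, ?_⟩
    · change ‖f x‖ ≤ M
      rw [hf2 x hx]
      exact h1
    · change ‖(F.s i - f x) F.vacuum‖ ≤ η
      rw [hf2 x hx]
      exact h2
  · intro j hj l hl
    change F.HilbertSchmidt (F.D l (f (F'.s j)))
    rw [hf2 _ (hs j)]
    exact hD j hj l hl

/-- Enlarging the target. -/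
def StarHomomorphism.enlarge {A' : StarSubalgebra ℂ (H' →L[ℂ] H')} {A B : StarSubalgebra ℂ (H →L[ℂ] H)}
    (φ : StarHomomorphism A' A) (h : A ≤ B) : StarHomomorphism A' B where
  toFun := φ.toFun
  maps x hx := h (φ.maps x hx)
  map_one := φ.map_one
  map_add := φ.map_add
  map_mul := φ.map_mul
  map_smul := φ.map_smul
  map_star := φ.map_star

theorem smooth_le (F : FockSpace k H) : F.smooth ≤ F.algebra := fun _ hx => hx.1

theorem smooth_main (hk : 1 ≤ k) (F : FockSpace k H) (F' : FockSpace k' H')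
    (φ : StarHomomorphism F'.smooth F.smooth) (hφ : F.DenseRange φ) : k' ≤ k := by
  have h := main hk F F' F'.smooth (smooth_le F') (smooth_s F') (smooth_inv F')
    (φ.enlarge (smooth_le F)) hφ Finset.univ ⟨0, hk⟩
    (fun j _ l _ => (φ.maps _ (smooth_s F' j)).2 l)
  simpa using h

/-- The inverse of a bijective homomorphism. -/
theorem inverse {A' : StarSubalgebra ℂ (H' →L[ℂ] H')} {A : StarSubalgebra ℂ (H →L[ℂ] H)}
    (φ : StarHomomorphism A' A) (h : Set.BijOn φ.toFun A' A) :
    ∃ ψ : StarHomomorphism A A', ∀ x ∈ A', ψ.toFun (φ.toFun x) = x := by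
  classical
  have h1 : ∀ y ∈ A, ∃ x ∈ A', φ.toFun x = y := fun y hy => h.surjOn hy
  choose! g hg1 hg2 using h1
  have hi : ∀ x ∈ A', ∀ y ∈ A', φ.toFun x = φ.toFun y → x = y := fun x hx y hy e => h.injOn hx hy e
  refine ⟨{ toFun := g
            maps := hg1
            map_one := hi _ (hg1 1 A.one_mem) _ A'.one_mem (by rw [hg2 1 A.one_mem, φ.map_one])
            map_add := fun x hx y hy => hi _ (hg1 _ (add_mem hx hy)) _ (add_mem (hg1 x hx) (hg1 y hy))
              (by rw [hg2 _ (add_mem hx hy), φ.map_add _ (hg1 x hx) _ (hg1 y hy), hg2 x hx, hg2 y hy])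
            map_mul := fun x hx y hy => hi _ (hg1 _ (mul_mem hx hy)) _ (mul_mem (hg1 x hx) (hg1 y hy))
              (by rw [hg2 _ (mul_mem hx hy), φ.map_mul _ (hg1 x hx) _ (hg1 y hy), hg2 x hx, hg2 y hy])
            map_smul := fun c x hx => hi _ (hg1 _ (A.smul_mem hx c)) _ (A'.smul_mem (hg1 x hx) c)
              (by rw [hg2 _ (A.smul_mem hx c), φ.map_smul c _ (hg1 x hx), hg2 x hx])
            map_star := fun x hx => by
              have hx' : ContinuousLinearMap.adjoint x ∈ A := by
                rw [← ContinuousLinearMap.star_eq_adjoint]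
                exact star_mem hx
              have hx'' : ContinuousLinearMap.adjoint (g x) ∈ A' := by
                rw [← ContinuousLinearMap.star_eq_adjoint]
                exact star_mem (hg1 x hx)
              exact hi _ (hg1 _ hx') _ hx''
                (by rw [hg2 _ hx', φ.map_star _ (hg1 x hx), hg2 x hx]) }, fun x hx => ?_⟩
  exact hi _ (hg1 _ (φ.maps x hx)) _ hx (hg2 _ (φ.maps x hx))

/-- **Theorem.**  Let `k, k' ≥ 1`, `F`, `F'` the full Fock spaces of `ℂ^k`, `ℂ^k'`.

(1) The elements of the C*-algebra generated by the semicircular operators whose free difference quotients are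
Hilbert-Schmidt operators form a *-algebra `F.smooth`, which contains the noncommutative polynomials and is closed under
inverses.

(2) Let `B` be any *-subalgebra of the C*-algebra of `F'` which contains the semicircular operators and is closed
under inverses, and let `φ` be any unital *-homomorphism (no continuity is assumed) from `B` to the C*-algebra of `F`.  Then
`‖φ(x)‖ ≤ ‖x‖`; if the range of `φ` is weakly dense, `S` is a set of indices, `i` is a letter, and
`D_l φ(s_j)` is a Hilbert-Schmidt operator for all `j ∈ S` and `l ≠ i`, then `S` has at most `k` elements.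

(3) If there is a unital *-homomorphism with weakly dense range from `F'.smooth` to `F.smooth` (no continuity is assumed),
then `k' ≤ k`.

(4) If the *-algebras `F'.smooth` and `F.smooth` are *-isomorphic then `k = k'`. -/
theorem result (k k' : ℕ) (hk : 1 ≤ k) (hk' : 1 ≤ k')
    (H : Type) [NormedAddCommGroup H] [InnerProductSpace ℂ H] [CompleteSpace H]
    (H' : Type) [NormedAddCommGroup H'] [InnerProductSpace ℂ H'] [CompleteSpace H']
    (F : FockSpace k H) (F' : FockSpace k' H') :
    (F.polynomials ≤ F.smooth ∧ InverseClosed F.smooth) ∧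
    (∀ B : StarSubalgebra ℂ (H' →L[ℂ] H'), B ≤ F'.algebra → (∀ j, F'.s j ∈ B) → InverseClosed B →
      ∀ φ : StarHomomorphism B F.algebra,
        (∀ x ∈ B, ‖φ.toFun x‖ ≤ ‖x‖) ∧
        (F.DenseRange φ → ∀ (S : Finset (Fin k')) (i : Fin k),
          (∀ j ∈ S, ∀ l, l ≠ i → F.HilbertSchmidt (F.D l (φ.toFun (F'.s j)))) → S.card ≤ k)) ∧
    (∀ φ : StarHomomorphism F'.smooth F.smooth, F.DenseRange φ → k' ≤ k) ∧
    (∀ φ : StarHomomorphism F'.smooth F.smooth, Set.BijOn φ.toFun F'.smooth F.smooth → k = k') := by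
  refine ⟨⟨smooth_poly F, smooth_inv F⟩, ?_, fun φ hφ => smooth_main hk F F' φ hφ, ?_⟩
  · intro B hB hs hinv φ
    exact ⟨fun x hx => Pool.DA.ctr (homOn φ) hinv hx,
      fun hφ S i hD => main hk F F' B hB hs hinv φ hφ S i hD⟩
  · intro φ hφ
    refine le_antisymm ?_ ?_
    · obtain ⟨ψ, hψ⟩ := inverse φ hφ
      refine smooth_main hk' F' F ψ (dense_of_surjective F' ψ fun j => ?_)
      exact ⟨φ.toFun (F'.s j), φ.maps _ (smooth_s F' j), hψ _ (smooth_s F' j)⟩
    · exact smooth_main hk F F' φ (dense_of_surjective F φ fun i => hφ.surjOn (smooth_s F i))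

end Pool.Agent.Results.MP_118406_an.SmoothSubalgebras
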